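import Pool.Agent.Lib.MP_5e7226_co.IN.Mirr

set_option autoImplicit false

/-! Symmetries given as functions. -/

namespace Pool.Agent.Lib.MP_5e7226_co.IN

open scoped InnerProductSpace

variable {d : ℕ}

/-- A linear symmetry of a convex body is invertible. -/
theorem exists_equiv {K : Set (EuclideanSpace ℝ (Fin d))} {o : EuclideanSpace ℝ (Fin d)}
    (hcomp : IsCompact K) (hint : (interior K).Nonempty)
    {g : EuclideanSpace ℝ (Fin d) → EuclideanSpace ℝ (Fin d)} (hg : IsLinearMap ℝ g)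
    (hK : ∀ x, o + x ∈ K ↔ o + g x ∈ K) :
    ∃ g' : EuclideanSpace ℝ (Fin d) ≃ₗ[ℝ] EuclideanSpace ℝ (Fin d), ∀ x, g' x = g x := by
  have hinj : ∀ x, g x = 0 → x = 0 := by
    intro x hx
    by_contra hx0
    obtain ⟨z, hz⟩ := hint
    have hzK : o + (z - o) ∈ K := by
      rw [add_sub_cancel]
      exact interior_subset hz
    have h1 : ∀ t : ℝ, o + (z - o + t • x) ∈ K := by
      intro t
      rw [hK, hg.map_add, hg.map_smul, hx, smul_zero, add_zero, ← hK]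
      exact hzK
    obtain ⟨R, hR⟩ := hcomp.isBounded.exists_norm_le
    have hn : 0 < ‖x‖ := norm_pos_iff.2 hx0
    have h2 := hR _ (h1 ((R + ‖z‖ + 1) / ‖x‖))
    have h3 : o + (z - o + ((R + ‖z‖ + 1) / ‖x‖) • x) = ((R + ‖z‖ + 1) / ‖x‖) • x - (-z) := by abel
    rw [h3] at h2
    have h4 := norm_sub_norm_le (((R + ‖z‖ + 1) / ‖x‖) • x) (-z)
    have hR0 : 0 ≤ R := (norm_nonneg _).trans h2
    rw [norm_smul, Real.norm_of_nonneg (by positivity), div_mul_cancel₀ _ hn.ne', norm_neg] at h4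
    linarith
  obtain ⟨L, hL⟩ : ∃ L : EuclideanSpace ℝ (Fin d) →ₗ[ℝ] EuclideanSpace ℝ (Fin d), ∀ x, L x = g x :=
    ⟨hg.mk' g, fun x => rfl⟩
  have hLi : Function.Injective L := by
    rw [← LinearMap.ker_eq_bot, eq_bot_iff]
    intro x hx
    rw [LinearMap.mem_ker, hL] at hx
    rw [Submodule.mem_bot]
    exact hinj x hx
  exact ⟨LinearEquiv.ofInjectiveEndo L hLi, fun x => by rw [LinearEquiv.coe_ofInjectiveEndo, hL]⟩

/-- A reflection given as a function is a reflection. -/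
theorem isReflection_of_fun {g : EuclideanSpace ℝ (Fin d) → EuclideanSpace ℝ (Fin d)}
    {g' : EuclideanSpace ℝ (Fin d) ≃ₗ[ℝ] EuclideanSpace ℝ (Fin d)} (hg' : ∀ x, g' x = g x)
    (h : ∃ a u : EuclideanSpace ℝ (Fin d), ⟪u, a⟫_ℝ = 2 ∧ ∀ x, g x = x - ⟪u, x⟫_ℝ • a) : CL.IsReflection g' := by
  obtain ⟨a, u, hua, hx⟩ := h
  exact ⟨a, innerₗ (EuclideanSpace ℝ (Fin d)) u, hua, fun x => by rw [hg', hx]; rfl⟩

/-- A reflection given by a linear equivalence, as a function. -/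
theorem fun_of_isReflection {g : EuclideanSpace ℝ (Fin d) ≃ₗ[ℝ] EuclideanSpace ℝ (Fin d)}
    (h : CL.IsReflection g) :
    ∃ a u : EuclideanSpace ℝ (Fin d), ⟪u, a⟫_ℝ = 2 ∧ ∀ x, g x = x - ⟪u, x⟫_ℝ • a := by
  obtain ⟨a, φ, ha, hx⟩ := h
  obtain ⟨u, hu⟩ : ∃ u : EuclideanSpace ℝ (Fin d), ∀ x, ⟪u, x⟫_ℝ = φ x := by
    refine ⟨(InnerProductSpace.toDual ℝ (EuclideanSpace ℝ (Fin d))).symm φ.toContinuousLinearMap, fun x => ?_⟩
    rw [InnerProductSpace.toDual_symm_apply]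
    rfl
  exact ⟨a, u, by rw [hu, ha], fun x => by rw [hx, hu]⟩

/-- The bodies with irreducible mirrors, with functions instead of linear equivalences. -/
theorem good_of_mirrors_fun (hd : 3 ≤ d) {K : Set (EuclideanSpace ℝ (Fin d))} {o : EuclideanSpace ℝ (Fin d)}
    (hconv : Convex ℝ K) (hcomp : IsCompact K) (hint : (interior K).Nonempty)
    (hirr : ∀ p : Submodule ℝ (EuclideanSpace ℝ (Fin d)),
      (∀ g : EuclideanSpace ℝ (Fin d) → EuclideanSpace ℝ (Fin d),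
        (∃ a u : EuclideanSpace ℝ (Fin d), ⟪u, a⟫_ℝ = 2 ∧ ∀ x, g x = x - ⟪u, x⟫_ℝ • a) →
        (∀ x, o + x ∈ K ↔ o + g x ∈ K) → ∀ x ∈ p, g x ∈ p) → p = ⊥ ∨ p = ⊤) : RG.Good K o := by
  refine good_of_mirrors hd hconv hcomp hint fun p hp => hirr p fun g hg hgK x hx => ?_
  have hlin : IsLinearMap ℝ g := by
    obtain ⟨a, u, -, h⟩ := hg
    constructor
    · intro x y
      rw [h, h, h, inner_add_right]
      module
    · intro c x
      rw [h, h, inner_smul_right]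
      module
  obtain ⟨g', hg'⟩ := exists_equiv hcomp hint hlin hgK
  rw [← hg' x]
  refine hp g' (isReflection_of_fun hg' hg) (fun x => ?_) x hx
  rw [hg']
  exact hgK x

end Pool.Agent.Lib.MP_5e7226_co.IN
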