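import Mathlib

set_option autoImplicit false

/-! Rotations of the space: axis, angle, powers. -/

namespace Pool.Agent.Lib.MP_5e7226_co.IN.Ax

open Matrix

/-- A rotation matrix. -/
structure Rot (A : Matrix (Fin 3) (Fin 3) ℝ) : Prop where
  orth : Aᵀ * A = 1
  det : A.det = 1

/-- The rotation about the unit vector `n` by the argument of the unit complex number `z`. -/
noncomputable def rot (n : Fin 3 → ℝ) (z : ℂ) (x : Fin 3 → ℝ) : Fin 3 → ℝ :=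
  z.re • x + ((1 - z.re) * (n ⬝ᵥ x)) • n + z.im • (n ⨯₃ x)

variable {A : Matrix (Fin 3) (Fin 3) ℝ} {n : Fin 3 → ℝ}

theorem Rot.orth' (h : Rot A) : A * Aᵀ = 1 := mul_eq_one_comm.1 h.orth

theorem Rot.adj (h : Rot A) : A.adjugate = Aᵀ := by
  have h1 : A.adjugate * A = 1 := by rw [adjugate_mul, h.det, one_smul]
  calc A.adjugate = A.adjugate * (A * Aᵀ) := by rw [h.orth', mul_one]
    _ = Aᵀ := by rw [← mul_assoc, h1, one_mul]

theorem Rot.dot (h : Rot A) (x y : Fin 3 → ℝ) : (A *ᵥ x) ⬝ᵥ (A *ᵥ y) = x ⬝ᵥ y := by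
  rw [dotProduct_mulVec, ← mulVec_transpose, mulVec_mulVec, h.orth, one_mulVec]

theorem dot_three (x y : Fin 3 → ℝ) : x ⬝ᵥ y = x 0 * y 0 + x 1 * y 1 + x 2 * y 2 := by
  simp [dotProduct, Fin.sum_univ_three]

theorem ext3 {x y : Fin 3 → ℝ} (h0 : x 0 = y 0) (h1 : x 1 = y 1) (h2 : x 2 = y 2) : x = y := by
  ext i
  fin_cases i
  exacts [h0, h1, h2]

theorem cr0 (x y : Fin 3 → ℝ) : (x ⨯₃ y) 0 = x 1 * y 2 - x 2 * y 1 := by simp [cross_apply]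

theorem cr1 (x y : Fin 3 → ℝ) : (x ⨯₃ y) 1 = x 2 * y 0 - x 0 * y 2 := by simp [cross_apply]

theorem cr2 (x y : Fin 3 → ℝ) : (x ⨯₃ y) 2 = x 0 * y 1 - x 1 * y 0 := by simp [cross_apply]

theorem dot_self_pos {x : Fin 3 → ℝ} (hx : x ≠ 0) : 0 < x ⬝ᵥ x := by
  have h1 : 0 ≤ x ⬝ᵥ x := by
    rw [dot_three]
    nlinarith [mul_self_nonneg (x 0), mul_self_nonneg (x 1), mul_self_nonneg (x 2)]
  exact lt_of_le_of_ne h1 fun h => hx (dotProduct_self_eq_zero.1 h.symm)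

theorem exists_normalize {x : Fin 3 → ℝ} (hx : x ≠ 0) : ∃ s : ℝ, 0 < s ∧ (s • x) ⬝ᵥ (s • x) = 1 := by
  have hpos := dot_self_pos hx
  obtain ⟨s, hs⟩ : ∃ s : ℝ, s = Real.sqrt (x ⬝ᵥ x) := ⟨_, rfl⟩
  have hs0 : 0 < s := by rw [hs]; exact Real.sqrt_pos.2 hpos
  have hs2 : s * s = x ⬝ᵥ x := by rw [hs]; exact Real.mul_self_sqrt hpos.le
  refine ⟨s⁻¹, inv_pos.2 hs0, ?_⟩
  rw [smul_dotProduct, dotProduct_smul, smul_eq_mul, smul_eq_mul, ← hs2]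
  field_simp

theorem Rot.cross (h : Rot A) (x y : Fin 3 → ℝ) : A *ᵥ (x ⨯₃ y) = (A *ᵥ x) ⨯₃ (A *ᵥ y) := by
  have h1 := h.adj
  rw [adjugate_fin_three] at h1
  have e00 : A 1 1 * A 2 2 - A 1 2 * A 2 1 = A 0 0 := congrFun (congrFun h1 0) 0
  have e01 : -(A 0 1 * A 2 2) + A 0 2 * A 2 1 = A 1 0 := congrFun (congrFun h1 0) 1
  have e02 : A 0 1 * A 1 2 - A 0 2 * A 1 1 = A 2 0 := congrFun (congrFun h1 0) 2
  have e10 : -(A 1 0 * A 2 2) + A 1 2 * A 2 0 = A 0 1 := congrFun (congrFun h1 1) 0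
  have e11 : A 0 0 * A 2 2 - A 0 2 * A 2 0 = A 1 1 := congrFun (congrFun h1 1) 1
  have e12 : -(A 0 0 * A 1 2) + A 0 2 * A 1 0 = A 2 1 := congrFun (congrFun h1 1) 2
  have e20 : A 1 0 * A 2 1 - A 1 1 * A 2 0 = A 0 2 := congrFun (congrFun h1 2) 0
  have e21 : -(A 0 0 * A 2 1) + A 0 1 * A 2 0 = A 1 2 := congrFun (congrFun h1 2) 1
  have e22 : A 0 0 * A 1 1 - A 0 1 * A 1 0 = A 2 2 := congrFun (congrFun h1 2) 2
  refine ext3 ?_ ?_ ?_
  · simp only [cr0, cr1, cr2, mulVec, dot_three]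
    rw [← e00, ← e10, ← e20]
    ring
  · simp only [cr0, cr1, cr2, mulVec, dot_three]
    rw [← e01, ← e11, ← e21]
    ring
  · simp only [cr0, cr1, cr2, mulVec, dot_three]
    rw [← e02, ← e12, ← e22]
    ring

theorem Rot.exists_axis (h : Rot A) : ∃ n : Fin 3 → ℝ, n ⬝ᵥ n = 1 ∧ A *ᵥ n = n := by
  have h1 : (A - 1).det = 0 := by
    have h2 : Aᵀ * (A - 1) = (1 - A)ᵀ := by rw [mul_sub, h.orth, mul_one, transpose_sub, transpose_one]
    have h3 := congrArg Matrix.det h2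
    rw [det_mul, det_transpose, det_transpose, h.det, one_mul, ← neg_sub A 1, det_neg, Fintype.card_fin] at h3
    linarith
  obtain ⟨v, hv, hAv⟩ := exists_mulVec_eq_zero_iff.2 h1
  rw [sub_mulVec, one_mulVec, sub_eq_zero] at hAv
  obtain ⟨s, -, hs⟩ := exists_normalize hv
  exact ⟨s • v, hs, by rw [mulVec_smul, hAv]⟩

theorem exists_unit_perp (n : Fin 3 → ℝ) : ∃ u : Fin 3 → ℝ, u ⬝ᵥ u = 1 ∧ n ⬝ᵥ u = 0 := by
  obtain ⟨w, hw, hnw⟩ : ∃ w : Fin 3 → ℝ, w ≠ 0 ∧ n ⬝ᵥ w = 0 := by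
    by_cases h0 : n 0 = 0
    · refine ⟨![1, 0, 0], fun h => one_ne_zero (congrFun h 0), ?_⟩
      rw [dot_three, h0]
      simp
    · refine ⟨![-n 1, n 0, 0], fun h => h0 (congrFun h 1), ?_⟩
      rw [dot_three]
      simp only [Matrix.cons_val]
      ring
  obtain ⟨s, -, hs⟩ := exists_normalize hw
  exact ⟨s • w, hs, by rw [dotProduct_smul, hnw, smul_zero]⟩

/-- `n × (n × x) = (n · x) n - x`. -/
theorem cross_cross_unit (hn : n ⬝ᵥ n = 1) (x : Fin 3 → ℝ) : n ⨯₃ (n ⨯₃ x) = (n ⬝ᵥ x) • n - x := by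
  rw [dot_three] at hn
  refine ext3 ?_ ?_ ?_
  · simp only [cr0, cr1, cr2, dot_three, Pi.sub_apply, Pi.smul_apply, smul_eq_mul]
    linear_combination (-x 0) * hn
  · simp only [cr0, cr1, cr2, dot_three, Pi.sub_apply, Pi.smul_apply, smul_eq_mul]
    linear_combination (-x 1) * hn
  · simp only [cr0, cr1, cr2, dot_three, Pi.sub_apply, Pi.smul_apply, smul_eq_mul]
    linear_combination (-x 2) * hn

theorem cross_norm (x y : Fin 3 → ℝ) :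
    (x ⨯₃ y) ⬝ᵥ (x ⨯₃ y) = (x ⬝ᵥ x) * (y ⬝ᵥ y) - (x ⬝ᵥ y) ^ 2 := by
  simp only [dot_three, cr0, cr1, cr2]
  ring

theorem eq_zero_of_perp {u w : Fin 3 → ℝ} (hn : n ⬝ᵥ n = 1) (hu : u ⬝ᵥ u = 1) (hnu : n ⬝ᵥ u = 0)
    (h1 : n ⬝ᵥ w = 0) (h2 : u ⬝ᵥ w = 0) (h3 : (n ⨯₃ u) ⬝ᵥ w = 0) : w = 0 := by
  have h4 : w ⨯₃ (n ⨯₃ u) = 0 := by
    have h5 : w ⨯₃ (n ⨯₃ u) = (u ⬝ᵥ w) • n - (n ⬝ᵥ w) • u := by
      refine ext3 ?_ ?_ ?_ <;>
      · simp only [cr0, cr1, cr2, dot_three, Pi.sub_apply, Pi.smul_apply, smul_eq_mul]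
        ring
    rw [h5, h1, h2, zero_smul, zero_smul, sub_zero]
  have h5 := cross_norm w (n ⨯₃ u)
  rw [h4, cross_norm, hn, hu, hnu, dotProduct_comm w (n ⨯₃ u), h3] at h5
  refine dotProduct_self_eq_zero.1 ?_
  simpa using h5.symm

theorem expand {u : Fin 3 → ℝ} (hn : n ⬝ᵥ n = 1) (hu : u ⬝ᵥ u = 1) (hnu : n ⬝ᵥ u = 0) (x : Fin 3 → ℝ) :
    x = (n ⬝ᵥ x) • n + (u ⬝ᵥ x) • u + ((n ⨯₃ u) ⬝ᵥ x) • (n ⨯₃ u) := by
  have hvv : (n ⨯₃ u) ⬝ᵥ (n ⨯₃ u) = 1 := by rw [cross_norm, hn, hu, hnu]; norm_num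
  have hnv : n ⬝ᵥ (n ⨯₃ u) = 0 := dot_self_cross n u
  have huv : u ⬝ᵥ (n ⨯₃ u) = 0 := dot_cross_self n u
  refine sub_eq_zero.1 (eq_zero_of_perp hn hu hnu ?_ ?_ ?_)
  · simp only [dotProduct_sub, dotProduct_add, dotProduct_smul, smul_eq_mul, hn, hnu, hnv]
    ring
  · simp only [dotProduct_sub, dotProduct_add, dotProduct_smul, smul_eq_mul, dotProduct_comm u n, hu, hnu, huv]
    ring
  · simp only [dotProduct_sub, dotProduct_add, dotProduct_smul, smul_eq_mul, dotProduct_comm (n ⨯₃ u) n,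
      dotProduct_comm (n ⨯₃ u) u, hvv, hnv, huv]
    ring

/-- Euler: every rotation is `rot n z`. -/
theorem Rot.exists_rot (h : Rot A) (hn : n ⬝ᵥ n = 1) (hAn : A *ᵥ n = n) :
    ∃ z : ℂ, z.re ^ 2 + z.im ^ 2 = 1 ∧ ∀ x, A *ᵥ x = rot n z x := by
  obtain ⟨u, hu, hnu⟩ := exists_unit_perp n
  obtain ⟨C, hC⟩ : ∃ C, C = u ⬝ᵥ (A *ᵥ u) := ⟨_, rfl⟩
  obtain ⟨S, hS⟩ : ∃ S, S = (n ⨯₃ u) ⬝ᵥ (A *ᵥ u) := ⟨_, rfl⟩
  have hnAu : n ⬝ᵥ (A *ᵥ u) = 0 := by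
    have h1 := h.dot n u
    rw [hAn, hnu] at h1
    exact h1
  have hAu : A *ᵥ u = C • u + S • (n ⨯₃ u) := by
    have h1 := expand hn hu hnu (A *ᵥ u)
    rw [hnAu, ← hC, ← hS, zero_smul, zero_add] at h1
    exact h1
  have hvv : (n ⨯₃ u) ⬝ᵥ (n ⨯₃ u) = 1 := by rw [cross_norm, hn, hu, hnu]; norm_num
  have huv : u ⬝ᵥ (n ⨯₃ u) = 0 := dot_cross_self n u
  have hnnu : n ⨯₃ (n ⨯₃ u) = -u := by rw [cross_cross_unit hn, hnu, zero_smul, zero_sub]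
  have hAv : A *ᵥ (n ⨯₃ u) = C • (n ⨯₃ u) - S • u := by
    rw [h.cross, hAn, hAu, map_add, map_smul, map_smul, hnnu, smul_neg, sub_eq_add_neg]
  refine ⟨⟨C, S⟩, ?_, fun x => ?_⟩
  · have h1 := h.dot u u
    rw [hu, hAu] at h1
    simp only [dotProduct_add, add_dotProduct, dotProduct_smul, smul_dotProduct, smul_eq_mul, hu, huv, hvv,
      dotProduct_comm (n ⨯₃ u) u] at h1
    simp only
    linear_combination h1
  · obtain ⟨a, ha⟩ : ∃ a, a = n ⬝ᵥ x := ⟨_, rfl⟩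
    obtain ⟨b, hb⟩ : ∃ b, b = u ⬝ᵥ x := ⟨_, rfl⟩
    obtain ⟨c, hc⟩ : ∃ c, c = (n ⨯₃ u) ⬝ᵥ x := ⟨_, rfl⟩
    have hx := expand hn hu hnu x
    rw [← ha, ← hb, ← hc] at hx
    have hnx : n ⨯₃ x = b • (n ⨯₃ u) - c • u := by
      rw [hx, map_add, map_add, map_smul, map_smul, map_smul, cross_self, hnnu, smul_zero, zero_add, smul_neg,
        sub_eq_add_neg]
    have hAx : A *ᵥ x = a • n + b • (C • u + S • (n ⨯₃ u)) + c • (C • (n ⨯₃ u) - S • u) := by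
      conv_lhs => rw [hx]
      rw [mulVec_add, mulVec_add, mulVec_smul, mulVec_smul, mulVec_smul, hAn, hAu, hAv]
    unfold rot
    rw [hAx, hnx, ← ha]
    simp only
    conv_rhs => rw [hx]
    module

theorem rot_dot (hn : n ⬝ᵥ n = 1) (z : ℂ) (x : Fin 3 → ℝ) : n ⬝ᵥ rot n z x = n ⬝ᵥ x := by
  unfold rot
  simp only [dotProduct_add, dotProduct_smul, smul_eq_mul, hn, dot_self_cross]
  ring

theorem rot_mul (hn : n ⬝ᵥ n = 1) (z w : ℂ) (x : Fin 3 → ℝ) : rot n z (rot n w x) = rot n (z * w) x := by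
  have h1 : n ⨯₃ rot n w x = w.re • (n ⨯₃ x) + w.im • ((n ⬝ᵥ x) • n - x) := by
    unfold rot
    rw [map_add, map_add, map_smul, map_smul, map_smul, cross_self, smul_zero, add_zero, cross_cross_unit hn]
  rw [rot, h1, rot_dot hn]
  unfold rot
  rw [Complex.mul_re, Complex.mul_im]
  module

theorem rot_one (n x : Fin 3 → ℝ) : rot n 1 x = x := by
  unfold rot
  rw [Complex.one_re, Complex.one_im]
  module

theorem pow_mulVec (hn : n ⬝ᵥ n = 1) {z : ℂ} (hA : ∀ x, A *ᵥ x = rot n z x) (k : ℕ) :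
    ∀ x, (A ^ k) *ᵥ x = rot n (z ^ k) x := by
  induction k with
  | zero => intro x; rw [pow_zero, pow_zero, one_mulVec, rot_one]
  | succ k ih => intro x; rw [pow_succ, pow_succ, ← mulVec_mulVec, hA, ih, rot_mul hn]

theorem trace_rot (hn : n ⬝ᵥ n = 1) {z : ℂ} (hA : ∀ x, A *ᵥ x = rot n z x) : A.trace = 1 + 2 * z.re := by
  have h1 : ∀ i, A i i = z.re + (1 - z.re) * n i * n i := by
    intro i
    have h2 := congrFun (hA (Pi.single i 1)) i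
    rw [mulVec_single_one] at h2
    have h3 : (n ⨯₃ (Pi.single i (1 : ℝ))) i = 0 := by
      fin_cases i
      · simp [cross_apply]
      · simp [cross_apply]
      · simp [cross_apply]
    unfold rot at h2
    simp only [Pi.add_apply, Pi.smul_apply, smul_eq_mul, Pi.single_eq_same, mul_one, h3, mul_zero, add_zero,
      dotProduct_single_one] at h2
    rw [← h2]
    rfl
  rw [trace_fin_three, h1, h1, h1]
  rw [dot_three] at hn
  linear_combination (1 - z.re) * hn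

theorem eq_one_iff (hn : n ⬝ᵥ n = 1) {z : ℂ} (hz : z.re ^ 2 + z.im ^ 2 = 1) (hA : ∀ x, A *ᵥ x = rot n z x) :
    A = 1 ↔ z = 1 := by
  constructor
  · intro h
    have h1 := trace_rot hn hA
    rw [h, trace_one, Fintype.card_fin] at h1
    have h2 : z.re = 1 := by push_cast at h1; linarith
    have h3 : z.im = 0 := by rw [h2] at hz; nlinarith
    exact Complex.ext h2 h3
  · intro h
    ext i j
    have h2 := congrFun (hA (Pi.single j 1)) i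
    rw [h, rot_one, mulVec_single_one] at h2
    rw [one_apply, ← Pi.single_apply, ← h2]
    rfl

theorem fixed_of_rot (hn : n ⬝ᵥ n = 1) {z : ℂ} (hz : z.re ^ 2 + z.im ^ 2 = 1) (hA : ∀ x, A *ᵥ x = rot n z x)
    (hA1 : A ≠ 1) {x : Fin 3 → ℝ} (hx : A *ᵥ x = x) : x = (n ⬝ᵥ x) • n := by
  have h1 : z.re ≠ 1 := by
    intro h
    have h3 : z.im = 0 := by rw [h] at hz; nlinarith
    exact hA1 ((eq_one_iff hn hz hA).2 (Complex.ext h h3))
  rw [hA] at hx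
  have h2 := congrArg (fun y => x ⬝ᵥ y) hx
  unfold rot at h2
  simp only [dotProduct_add, dotProduct_smul, smul_eq_mul, dot_cross_self, mul_zero, add_zero,
    dotProduct_comm x n] at h2
  have h3 : (1 - z.re) * (x ⬝ᵥ x - (n ⬝ᵥ x) ^ 2) = 0 := by linear_combination (-1 : ℝ) * h2
  have h4 : x ⬝ᵥ x - (n ⬝ᵥ x) ^ 2 = 0 := (mul_eq_zero.1 h3).resolve_left fun h => h1 (by linarith)
  refine sub_eq_zero.1 (dotProduct_self_eq_zero.1 ?_)
  simp only [dotProduct_sub, sub_dotProduct, dotProduct_smul, smul_dotProduct, smul_eq_mul, hn,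
    dotProduct_comm x n]
  linear_combination h4

theorem Rot.conj (h : Rot A) (z : ℂ) (x : Fin 3 → ℝ) : A *ᵥ rot n z x = rot (A *ᵥ n) z (A *ᵥ x) := by
  unfold rot
  rw [mulVec_add, mulVec_add, mulVec_smul, mulVec_smul, mulVec_smul, h.cross, h.dot]

end Pool.Agent.Lib.MP_5e7226_co.IN.Ax
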