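import Pool.Agent.Lib.MP_5e7226_co.IN.Ax0

set_option autoImplicit false

/-! A closed set of `ℝ ^ 3` with infinitely many symmetries contains with a point the circle through
this point about a fixed axis. -/

namespace Pool.Agent.Lib.MP_5e7226_co.IN.Ax

open Matrix Filter Topology

/-- The rotation about the unit vector `n` by the angle `t`. -/
noncomputable def rt (n : Fin 3 → ℝ) (t : ℝ) (x : Fin 3 → ℝ) : Fin 3 → ℝ :=
  Real.cos t • x + ((1 - Real.cos t) * (n ⬝ᵥ x)) • n + Real.sin t • (n ⨯₃ x)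

theorem rt_eq (n : Fin 3 → ℝ) (t : ℝ) (x : Fin 3 → ℝ) : rt n t x = rot n (Complex.exp (t * Complex.I)) x := by
  unfold rt rot
  rw [Complex.exp_ofReal_mul_I_re, Complex.exp_ofReal_mul_I_im]

variable {A : Matrix (Fin 3) (Fin 3) ℝ}

theorem exists_rt (h : Rot A) : ∃ (n : Fin 3 → ℝ) (t : ℝ), n ⬝ᵥ n = 1 ∧ 0 ≤ t ∧ t ≤ Real.pi ∧
    ∀ x, A *ᵥ x = rt n t x := by
  obtain ⟨n, hn, hAn⟩ := h.exists_axis
  obtain ⟨z, hz, hAz⟩ := h.exists_rot hn hAn
  obtain ⟨t, ht⟩ : ∃ t, t = Real.arccos z.re := ⟨_, rfl⟩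
  have h1 : -1 ≤ z.re := by nlinarith [sq_nonneg z.im]
  have h2 : z.re ≤ 1 := by nlinarith [sq_nonneg z.im]
  have hcos : Real.cos t = z.re := by rw [ht, Real.cos_arccos h1 h2]
  have hsin : Real.sin t = |z.im| := by
    rw [ht, Real.sin_arccos, ← Real.sqrt_sq_eq_abs]
    congr 1
    linarith
  rcases le_total 0 z.im with h0 | h0
  · refine ⟨n, t, hn, by rw [ht]; exact Real.arccos_nonneg _, by rw [ht]; exact Real.arccos_le_pi _, fun x => ?_⟩
    rw [hAz, rt, rot, hcos, hsin, abs_of_nonneg h0]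
  · refine ⟨-n, t, by rw [neg_dotProduct, dotProduct_neg, neg_neg, hn], by rw [ht]; exact Real.arccos_nonneg _,
      by rw [ht]; exact Real.arccos_le_pi _, fun x => ?_⟩
    rw [hAz, rt, rot, hcos, hsin, abs_of_nonpos h0, neg_dotProduct, map_neg, LinearMap.neg_apply]
    module

theorem trace_rt {n : Fin 3 → ℝ} {t : ℝ} (hn : n ⬝ᵥ n = 1) (hA : ∀ x, A *ᵥ x = rt n t x) :
    A.trace = 1 + 2 * Real.cos t := by
  have h1 := trace_rot hn (z := Complex.exp (t * Complex.I)) (A := A) fun x => by rw [hA, rt_eq]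
  rwa [Complex.exp_ofReal_mul_I_re] at h1

theorem pow_rt {n : Fin 3 → ℝ} {t : ℝ} (hn : n ⬝ᵥ n = 1) (hA : ∀ x, A *ᵥ x = rt n t x) (k : ℕ)
    (x : Fin 3 → ℝ) : (A ^ k) *ᵥ x = rt n (k * t) x := by
  rw [pow_mulVec hn (z := Complex.exp (t * Complex.I)) (A := A) (fun x => by rw [hA, rt_eq]), rt_eq,
    ← Complex.exp_nat_mul]
  congr 2
  push_cast
  ring

theorem rt_zero (n x : Fin 3 → ℝ) : rt n 0 x = x := by
  unfold rt
  rw [Real.cos_zero, Real.sin_zero]
  module

theorem continuous_rt (x : Fin 3 → ℝ) : Continuous fun q : (Fin 3 → ℝ) × ℝ => rt q.1 q.2 x := by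
  have h0 : ∀ i : Fin 3, Continuous fun q : (Fin 3 → ℝ) × ℝ => q.1 i := fun i =>
    (continuous_apply i).comp continuous_fst
  have h1 : Continuous fun q : (Fin 3 → ℝ) × ℝ => q.1 ⬝ᵥ x := by
    simp only [dot_three]
    exact (((h0 0).mul continuous_const).add ((h0 1).mul continuous_const)).add ((h0 2).mul continuous_const)
  have h2 : Continuous fun q : (Fin 3 → ℝ) × ℝ => q.1 ⨯₃ x := by
    refine continuous_pi fun i => ?_
    fin_cases i
    · simp only [Fin.zero_eta, cr0]
      exact ((h0 1).mul continuous_const).sub ((h0 2).mul continuous_const)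
    · simp only [Fin.mk_one, cr1]
      exact ((h0 2).mul continuous_const).sub ((h0 0).mul continuous_const)
    · simp only [Fin.reduceFinMk, cr2]
      exact ((h0 0).mul continuous_const).sub ((h0 1).mul continuous_const)
  have h3 : Continuous fun q : (Fin 3 → ℝ) × ℝ => Real.cos q.2 := Real.continuous_cos.comp continuous_snd
  have h4 : Continuous fun q : (Fin 3 → ℝ) × ℝ => Real.sin q.2 := Real.continuous_sin.comp continuous_snd
  unfold rt
  exact ((h3.smul continuous_const).add (((continuous_const.sub h3).mul h1).smul continuous_fst)).add (h4.smul h2)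

theorem isCompact_unit : IsCompact {n : Fin 3 → ℝ | n ⬝ᵥ n = 1} := by
  refine IsCompact.of_isClosed_subset (isCompact_univ_pi fun _ : Fin 3 => isCompact_Icc (a := (-1 : ℝ)) (b := 1)) ?_ ?_
  · refine isClosed_eq ?_ continuous_const
    simp only [dot_three]
    have h0 : ∀ i : Fin 3, Continuous fun q : Fin 3 → ℝ => q i := continuous_apply
    exact (((h0 0).mul (h0 0)).add ((h0 1).mul (h0 1))).add ((h0 2).mul (h0 2))
  · intro n hn i _
    have hn' : n 0 * n 0 + n 1 * n 1 + n 2 * n 2 = 1 := by rw [← dot_three]; exact hn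
    have h3 : n i * n i ≤ 1 := by
      have a0 := mul_self_nonneg (n 0)
      have a1 := mul_self_nonneg (n 1)
      have a2 := mul_self_nonneg (n 2)
      fin_cases i
      · change n 0 * n 0 ≤ 1
        linarith
      · change n 1 * n 1 ≤ 1
        linarith
      · change n 2 * n 2 ≤ 1
        linarith
    exact ⟨by nlinarith, by nlinarith⟩

theorem exists_circle {D : Set (Fin 3 → ℝ)} (hD : IsClosed D) {A : ℕ → Matrix (Fin 3) (Fin 3) ℝ}
    (hA : ∀ k, (A k)ᵀ * A k = 1) (hAD : ∀ k, ∀ x ∈ D, A k *ᵥ x ∈ D) (hA1 : ∀ k, A k ≠ 1)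
    (hlim : Tendsto A atTop (𝓝 1)) :
    ∃ p : Fin 3 → ℝ, p ⬝ᵥ p = 1 ∧ ∀ t : ℝ, 0 ≤ t → ∀ x ∈ D, rt p t x ∈ D := by
  -- the determinants are eventually one
  have hdet : Tendsto (fun k => (A k).det) atTop (𝓝 1) := by
    have h1 : Continuous fun B : Matrix (Fin 3) (Fin 3) ℝ => B.det := continuous_id.matrix_det
    have h2 := (h1.tendsto 1).comp hlim
    rwa [det_one] at h2
  have hdet2 : ∀ k, (A k).det = 1 ∨ (A k).det = -1 := by
    intro k
    have h1 := congrArg Matrix.det (hA k)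
    rw [det_mul, det_transpose, det_one] at h1
    exact mul_self_eq_one_iff.1 h1
  obtain ⟨N, hN⟩ := (hdet.eventually_const_lt (by norm_num : (0 : ℝ) < 1)).exists_forall_of_atTop
  have hrot : ∀ k, Rot (A (k + N)) := by
    intro k
    refine ⟨hA _, ?_⟩
    rcases hdet2 (k + N) with h | h
    · exact h
    · have := hN (k + N) (Nat.le_add_left _ _)
      rw [h] at this
      norm_num at this
  choose n t hn ht0 htp hAt using fun k => exists_rt (hrot k)
  have hcos : Tendsto (fun k => Real.cos (t k)) atTop (𝓝 1) := by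
    have h1 : Continuous fun B : Matrix (Fin 3) (Fin 3) ℝ => B.trace := continuous_id.matrix_trace
    have h2 := (h1.tendsto 1).comp (hlim.comp (tendsto_add_atTop_nat N))
    rw [trace_one, Fintype.card_fin] at h2
    have h3 := (h2.sub_const 1).div_const 2
    have h4 : (((3 : ℕ) : ℝ) - 1) / 2 = 1 := by norm_num
    rw [h4] at h3
    refine h3.congr fun k => ?_
    change ((A (k + N)).trace - 1) / 2 = Real.cos (t k)
    rw [trace_rt (hn k) (hAt k)]
    ring
  have ht : Tendsto t atTop (𝓝 0) := by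
    have h1 := (Real.continuous_arccos.tendsto 1).comp hcos
    rw [Real.arccos_one] at h1
    exact h1.congr fun k => Real.arccos_cos (ht0 k) (htp k)
  have htpos : ∀ k, 0 < t k := by
    intro k
    refine lt_of_le_of_ne (ht0 k) fun h => hA1 (k + N) ?_
    ext i j
    have h2 := congrFun (hAt k (Pi.single j 1)) i
    rw [← h, rt_zero, mulVec_single_one] at h2
    rw [one_apply, ← Pi.single_apply, ← h2]
    rfl
  obtain ⟨p, hp, s, hs, hsp⟩ := isCompact_unit.tendsto_subseq hn
  refine ⟨p, hp, fun u hu x hx => ?_⟩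
  have hts : Tendsto (fun k => t (s k)) atTop (𝓝 0) := ht.comp hs.tendsto_atTop
  obtain ⟨m, hmdef⟩ : ∃ m : ℕ → ℕ, ∀ k, m k = ⌊u / t (s k)⌋₊ := ⟨_, fun _ => rfl⟩
  obtain ⟨w, hwdef⟩ : ∃ w : ℕ → ℝ, ∀ k, w k = (m k : ℝ) * t (s k) := ⟨_, fun _ => rfl⟩
  have hm : Tendsto w atTop (𝓝 u) := by
    have h1 : Tendsto (fun k => u - t (s k)) atTop (𝓝 u) := by
      have := hts.const_sub u
      rwa [sub_zero] at this
    refine tendsto_of_tendsto_of_tendsto_of_le_of_le h1 tendsto_const_nhds ?_ ?_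
    · intro k
      have h2 := htpos (s k)
      have h3 := Nat.lt_floor_add_one (u / t (s k))
      rw [div_lt_iff₀ h2, ← hmdef] at h3
      change u - t (s k) ≤ w k
      rw [hwdef]
      nlinarith
    · intro k
      have h2 := htpos (s k)
      have h3 := Nat.floor_le (div_nonneg hu h2.le)
      rw [le_div_iff₀ h2, ← hmdef, ← hwdef] at h3
      exact h3
  have hmem : ∀ k, rt (n (s k)) (w k) x ∈ D := by
    intro k
    rw [hwdef, ← pow_rt (hn _) (hAt _)]
    have h2 : ∀ m : ℕ, (A (s k + N) ^ m) *ᵥ x ∈ D := by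
      intro m
      induction m with
      | zero => rw [pow_zero, one_mulVec]; exact hx
      | succ m ih => rw [pow_succ', ← mulVec_mulVec]; exact hAD _ _ ih
    exact h2 _
  have hF : Tendsto (fun k => (n (s k), w k)) atTop (𝓝 (p, u)) := hsp.prodMk_nhds hm
  have hlim2 := ((continuous_rt x).tendsto (p, u)).comp hF
  exact hD.mem_of_tendsto hlim2 (Eventually.of_forall hmem)

end Pool.Agent.Lib.MP_5e7226_co.IN.Ax
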