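import Pool.Agent.Lib.MP_5e7226_co.IN.Ax1

set_option autoImplicit false

/-! Infinitely many symmetries: the mirrors through an axis. -/

namespace Pool.Agent.Lib.MP_5e7226_co.IN.Ax

open Matrix Filter Topology

theorem entry_le {A : Matrix (Fin 3) (Fin 3) ℝ} (hA : Aᵀ * A = 1) (i j : Fin 3) : A i j ∈ Set.Icc (-1 : ℝ) 1 := by
  have h1 := congrFun (congrFun hA j) j
  rw [mul_apply, one_apply_eq] at h1
  simp only [transpose_apply] at h1
  have h2 : A i j * A i j ≤ 1 := by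
    rw [← h1]
    exact Finset.single_le_sum (f := fun k => A k j * A k j) (fun k _ => mul_self_nonneg _) (Finset.mem_univ i)
  exact ⟨by nlinarith, by nlinarith⟩

theorem exists_seq {S : Set (Matrix (Fin 3) (Fin 3) ℝ)} (hS : S.Infinite) (horth : ∀ A ∈ S, Aᵀ * A = 1)
    (hcl : IsClosed S) : ∃ (A₀ : Matrix (Fin 3) (Fin 3) ℝ) (A : ℕ → Matrix (Fin 3) (Fin 3) ℝ), A₀ ∈ S ∧
      (∀ k, A k ∈ S) ∧ (∀ k, A₀ᵀ * A k ≠ 1) ∧ Tendsto (fun k => A₀ᵀ * A k) atTop (𝓝 1) := by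
  have hK : IsCompact (Set.pi Set.univ fun _ : Fin 3 => Set.pi Set.univ fun _ : Fin 3 => Set.Icc (-1 : ℝ) 1) :=
    isCompact_univ_pi fun _ => isCompact_univ_pi fun _ => isCompact_Icc
  obtain ⟨A₀, -, hacc⟩ := hS.exists_accPt_of_subset_isCompact hK fun A hA i _ j _ => entry_le (horth A hA) i j
  have h1 : A₀ ∈ closure (S \ {A₀}) := by
    rw [accPt_principal_iff_clusterPt] at hacc
    exact mem_closure_iff_clusterPt.2 hacc
  have hfc : FirstCountableTopology (Matrix (Fin 3) (Fin 3) ℝ) :=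
    inferInstanceAs (FirstCountableTopology (Fin 3 → Fin 3 → ℝ))
  obtain ⟨A, hA, hlim⟩ := mem_closure_iff_seq_limit.1 h1
  have h0 : A₀ ∈ S := hcl.mem_of_tendsto hlim (Eventually.of_forall fun k => (hA k).1)
  refine ⟨A₀, A, h0, fun k => (hA k).1, fun k h => ?_, ?_⟩
  · have h2 : A₀ * A₀ᵀ = 1 := mul_eq_one_comm.1 (horth A₀ h0)
    have h3 : A k = A₀ := by
      calc A k = A₀ * A₀ᵀ * A k := by rw [h2, one_mul]
        _ = A₀ := by rw [mul_assoc, h, mul_one]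
    exact (hA k).2 h3
  · have h2 : Continuous fun B : Matrix (Fin 3) (Fin 3) ℝ => A₀ᵀ * B := continuous_const.matrix_mul continuous_id
    have h3 := (h2.tendsto A₀).comp hlim
    rwa [horth A₀ h0] at h3

/-- The mirror images are obtained by rotations. -/
theorem mirror {p a : Fin 3 → ℝ} (hp : p ⬝ᵥ p = 1) (ha : a ⬝ᵥ a = 1) (hpa : p ⬝ᵥ a = 0) (x : Fin 3 → ℝ) :
    ∃ t : ℝ, 0 ≤ t ∧ rt p t x = x - (2 * (a ⬝ᵥ x)) • a := by
  obtain ⟨b, hb⟩ : ∃ b, b = p ⨯₃ a := ⟨_, rfl⟩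
  have hx := expand hp ha hpa x
  rw [← hb] at hx
  obtain ⟨u, hu⟩ : ∃ u, u = a ⬝ᵥ x := ⟨_, rfl⟩
  obtain ⟨v, hv⟩ : ∃ v, v = b ⬝ᵥ x := ⟨_, rfl⟩
  obtain ⟨t, ht0, ht1, ht2⟩ : ∃ t : ℝ, 0 ≤ t ∧ u * Real.cos t - v * Real.sin t = -u ∧
      u * Real.sin t + v * Real.cos t = v := by
    by_cases hw : (⟨u, v⟩ : ℂ) = 0
    · have h1 := congrArg Complex.re hw
      have h2 := congrArg Complex.im hw
      change u = 0 at h1
      change v = 0 at h2
      exact ⟨0, le_rfl, by rw [h1, h2]; ring, by rw [h1, h2]; ring⟩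
    · obtain ⟨w, hwdef⟩ : ∃ w : ℂ, w = ⟨u, v⟩ := ⟨_, rfl⟩
      rw [← hwdef] at hw
      obtain ⟨q, hq⟩ : ∃ q : ℂ, q = -(starRingEnd ℂ w) / w := ⟨_, rfl⟩
      have hq1 : ‖q‖ = 1 := by
        rw [hq, norm_div, norm_neg, Complex.norm_conj]
        exact div_self (norm_ne_zero_iff.2 hw)
      have hqw : w * q = -(starRingEnd ℂ w) := by rw [hq]; field_simp
      obtain ⟨s, hs⟩ : ∃ s : ℝ, s = q.arg + 2 * Real.pi := ⟨_, rfl⟩
      have hs0 : 0 ≤ s := by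
        have h1 := Complex.neg_pi_lt_arg q
        have h2 := Real.pi_pos
        rw [hs]
        linarith
      have hqe : q = Complex.exp (q.arg * Complex.I) := by
        have h1 := Complex.norm_mul_exp_arg_mul_I q
        rw [hq1, Complex.ofReal_one, one_mul] at h1
        exact h1.symm
      have hre : q.re = Real.cos s := by
        rw [hs, Real.cos_add_two_pi]
        conv_lhs => rw [hqe]
        rw [Complex.exp_ofReal_mul_I_re]
      have him : q.im = Real.sin s := by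
        rw [hs, Real.sin_add_two_pi]
        conv_lhs => rw [hqe]
        rw [Complex.exp_ofReal_mul_I_im]
      have e1 := congrArg Complex.re hqw
      have e2 := congrArg Complex.im hqw
      rw [Complex.mul_re, Complex.neg_re, Complex.conj_re, hre, him, hwdef] at e1
      rw [Complex.mul_im, Complex.neg_im, Complex.conj_im, hre, him, hwdef] at e2
      refine ⟨s, hs0, e1, ?_⟩
      change u * Real.sin s + v * Real.cos s = - -v at e2
      rw [neg_neg] at e2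
      exact e2
  refine ⟨t, ht0, ?_⟩
  have hpb : p ⨯₃ b = -a := by rw [hb, cross_cross_unit hp, hpa, zero_smul, zero_sub]
  obtain ⟨c, hc⟩ : ∃ c, c = p ⬝ᵥ x := ⟨_, rfl⟩
  rw [← hu, ← hv, ← hc] at hx
  have hpx : p ⨯₃ x = u • b - v • a := by
    rw [hx, map_add, map_add, map_smul, map_smul, map_smul, cross_self, hpb, ← hb, smul_zero, zero_add, smul_neg,
      sub_eq_add_neg]
  rw [rt, hpx, ← hc, ← hu]
  have e3 : Real.cos t • x + ((1 - Real.cos t) * c) • p + Real.sin t • (u • b - v • a) =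
      c • p + (u * Real.cos t - v * Real.sin t) • a + (u * Real.sin t + v * Real.cos t) • b := by
    conv_lhs => rw [hx]
    module
  rw [e3, ht1, ht2]
  conv_rhs => rw [hx]
  module

theorem mirrors_of_infinite {D : Set (Fin 3 → ℝ)} (hD : IsClosed D)
    (hinf : {A : Matrix (Fin 3) (Fin 3) ℝ | Aᵀ * A = 1 ∧ (∀ x ∈ D, A *ᵥ x ∈ D) ∧ ∀ x ∈ D, Aᵀ *ᵥ x ∈ D}.Infinite) :
    ∃ p : Fin 3 → ℝ, p ⬝ᵥ p = 1 ∧ ∀ a : Fin 3 → ℝ, a ⬝ᵥ a = 1 → p ⬝ᵥ a = 0 →
      ∀ x ∈ D, x - (2 * (a ⬝ᵥ x)) • a ∈ D := by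
  obtain ⟨S, hS⟩ : ∃ S, S = {A : Matrix (Fin 3) (Fin 3) ℝ | Aᵀ * A = 1 ∧ (∀ x ∈ D, A *ᵥ x ∈ D) ∧
    ∀ x ∈ D, Aᵀ *ᵥ x ∈ D} := ⟨_, rfl⟩
  rw [← hS] at hinf
  have hcl : IsClosed S := by
    rw [hS]
    refine IsClosed.inter ?_ (IsClosed.inter ?_ ?_)
    · exact isClosed_eq (continuous_id.matrix_transpose.matrix_mul continuous_id) continuous_const
    · have h1 : {A : Matrix (Fin 3) (Fin 3) ℝ | ∀ x ∈ D, A *ᵥ x ∈ D} = ⋂ x ∈ D, (fun A => A *ᵥ x) ⁻¹' D := by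
        ext A
        simp
      change IsClosed {A : Matrix (Fin 3) (Fin 3) ℝ | ∀ x ∈ D, A *ᵥ x ∈ D}
      rw [h1]
      exact isClosed_biInter fun x _ => hD.preimage (continuous_id.matrix_mulVec continuous_const)
    · have h1 : {A : Matrix (Fin 3) (Fin 3) ℝ | ∀ x ∈ D, Aᵀ *ᵥ x ∈ D} = ⋂ x ∈ D, (fun A => Aᵀ *ᵥ x) ⁻¹' D := by
        ext A
        simp
      change IsClosed {A : Matrix (Fin 3) (Fin 3) ℝ | ∀ x ∈ D, Aᵀ *ᵥ x ∈ D}
      rw [h1]
      exact isClosed_biInter fun x _ =>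
        hD.preimage (continuous_id.matrix_transpose.matrix_mulVec continuous_const)
  have hmem : ∀ A ∈ S, Aᵀ * A = 1 ∧ (∀ x ∈ D, A *ᵥ x ∈ D) ∧ ∀ x ∈ D, Aᵀ *ᵥ x ∈ D := by
    intro A hA
    rw [hS] at hA
    exact hA
  obtain ⟨A₀, A, h0, hA, hA1, hlim⟩ := exists_seq hinf (fun A hA => (hmem A hA).1) hcl
  obtain ⟨p, hp, hcirc⟩ := exists_circle hD (A := fun k => A₀ᵀ * A k) (fun k => by
    rw [transpose_mul, transpose_transpose, mul_assoc, ← mul_assoc A₀ A₀ᵀ, mul_eq_one_comm.1 (hmem _ h0).1, one_mul]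
    exact (hmem _ (hA k)).1) (fun k x hx => by
    rw [← mulVec_mulVec]
    exact (hmem _ h0).2.2 _ ((hmem _ (hA k)).2.1 x hx)) hA1 hlim
  refine ⟨p, hp, fun a ha hpa x hx => ?_⟩
  obtain ⟨t, ht0, ht⟩ := mirror hp ha hpa x
  rw [← ht]
  exact hcirc t ht0 x hx

end Pool.Agent.Lib.MP_5e7226_co.IN.Ax
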