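import Pool.Agent.Lib.MP_5e7226_co.CL.RDefs

set_option autoImplicit false

/-! The intrinsic form: definitions. -/

namespace Pool.Agent.Lib.MP_5e7226_co.IN

open scoped InnerProductSpace

variable {d : ℕ}

/-- `g` is a symmetry of `K` about `o`. -/
def Sym (K : Set (EuclideanSpace ℝ (Fin d))) (o : EuclideanSpace ℝ (Fin d))
    (g : EuclideanSpace ℝ (Fin d) ≃ₗ[ℝ] EuclideanSpace ℝ (Fin d)) : Prop :=
  ∀ x, o + x ∈ K ↔ o + g x ∈ K

/-- The unit vectors whose reflection maps `C` into itself. -/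
def mir (C : Set (EuclideanSpace ℝ (Fin d))) : Set (EuclideanSpace ℝ (Fin d)) :=
  {a | ‖a‖ = 1 ∧ ∀ x ∈ C, x - (2 * ⟪a, x⟫_ℝ) • a ∈ C}

/-- The body `K` about `o` in the coordinates `T`. -/
def body (T : EuclideanSpace ℝ (Fin d) ≃ₗ[ℝ] EuclideanSpace ℝ (Fin d))
    (K : Set (EuclideanSpace ℝ (Fin d))) (o : EuclideanSpace ℝ (Fin d)) : Set (EuclideanSpace ℝ (Fin d)) :=
  {x | o + T.symm x ∈ K}

/-- `K` has the rotations of a tetrahedron about `o`, in the basis `b`. -/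
def TetK (K : Set (EuclideanSpace ℝ (Fin 3))) (o : EuclideanSpace ℝ (Fin 3))
    (b : Fin 3 → EuclideanSpace ℝ (Fin 3)) : Prop :=
  LinearIndependent ℝ b ∧
    (∀ x y z : ℝ, o + (x • b 0 + y • b 1 + z • b 2) ∈ K → o + (x • b 0 - y • b 1 - z • b 2) ∈ K) ∧
    ∀ x y z : ℝ, o + (x • b 0 + y • b 1 + z • b 2) ∈ K → o + (x • b 1 + y • b 2 + z • b 0) ∈ K

theorem reflect_self {a : EuclideanSpace ℝ (Fin d)} (ha : ‖a‖ = 1) (x : EuclideanSpace ℝ (Fin d)) :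
    (x - (2 * ⟪a, x⟫_ℝ) • a) - (2 * ⟪a, x - (2 * ⟪a, x⟫_ℝ) • a⟫_ℝ) • a = x := by
  have h1 : ⟪a, a⟫_ℝ = 1 := by rw [real_inner_self_eq_norm_sq, ha, one_pow]
  rw [inner_sub_right, inner_smul_right, h1]
  module

end Pool.Agent.Lib.MP_5e7226_co.IN
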