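import Pool.Agent.Lib.MP_5e7226_co.RG.MnA
import Pool.Agent.Lib.MP_5e7226_co.RG.MnD
import Pool.Agent.Lib.MP_5e7226_co.RG.CvB3
import Pool.Agent.Lib.MP_5e7226_co.IN.Defs

set_option autoImplicit false

/-! The case in which all reflections are symmetries (in suitable coordinates). -/

namespace Pool.Agent.Lib.MP_5e7226_co.IN

open scoped InnerProductSpace
open Finset
open Pool.Agent.Lib.MP_5e7226_co

variable {d : ℕ}

/-- If all reflections map `C` into itself, then `C` is a union of spheres around `0`. -/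
theorem sphere_invariant {C : Set (EuclideanSpace ℝ (Fin d))}
    (h : ∀ a : EuclideanSpace ℝ (Fin d), ‖a‖ = 1 → a ∈ mir C) {x y : EuclideanSpace ℝ (Fin d)}
    (hxy : ‖x‖ = ‖y‖) (hx : x ∈ C) : y ∈ C := by
  by_cases hne : x - y = 0
  · rw [← sub_eq_zero.mp hne]; exact hx
  · have hn : 0 < ‖x - y‖ := norm_pos_iff.mpr hne
    have hun : ‖(‖x - y‖)⁻¹ • (x - y)‖ = 1 := by
      rw [norm_smul, norm_inv, norm_norm, inv_mul_cancel₀ hn.ne']
    have h1 := (h _ hun).2 x hx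
    have h2 : 2 * ⟪x - y, x⟫_ℝ = ‖x - y‖ ^ 2 := by
      rw [← real_inner_self_eq_norm_sq, inner_sub_left, inner_sub_left, inner_sub_right,
        inner_sub_right, real_inner_self_eq_norm_sq, real_inner_self_eq_norm_sq, hxy,
        real_inner_comm y x]
      ring
    have h3 : (2 * ⟪(‖x - y‖)⁻¹ • (x - y), x⟫_ℝ) • ((‖x - y‖)⁻¹ • (x - y)) = x - y := by
      rw [real_inner_smul_left, smul_smul]
      have : 2 * (‖x - y‖⁻¹ * ⟪x - y, x⟫_ℝ) * ‖x - y‖⁻¹ = 1 := by
        have e : 2 * (‖x - y‖⁻¹ * ⟪x - y, x⟫_ℝ) * ‖x - y‖⁻¹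
            = (2 * ⟪x - y, x⟫_ℝ) * (‖x - y‖⁻¹ * ‖x - y‖⁻¹) := by ring
        rw [e, h2]
        field_simp
      rw [this, one_smul]
    rw [h3] at h1
    simpa using h1

/-- The images of the standard basis vectors. -/
theorem linearIndependent_std (T : EuclideanSpace ℝ (Fin d) ≃ₗ[ℝ] EuclideanSpace ℝ (Fin d)) :
    LinearIndependent ℝ (fun i => T.symm (EuclideanSpace.basisFun (Fin d) ℝ i)) := by
  have h := (EuclideanSpace.basisFun (Fin d) ℝ).toBasis.linearIndependent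
  have h2 := h.map' T.symm.toLinearMap (LinearMap.ker_eq_bot.mpr T.symm.injective)
  have h3 : (fun i => T.symm (EuclideanSpace.basisFun (Fin d) ℝ i))
      = ⇑T.symm.toLinearMap ∘ ⇑(EuclideanSpace.basisFun (Fin d) ℝ).toBasis := by
    funext i
    simp
  rw [h3]
  exact h2

/-- All signed permutations of the images of the standard basis vectors are symmetries. -/
theorem signed_perm {K : Set (EuclideanSpace ℝ (Fin d))} {o : EuclideanSpace ℝ (Fin d)}
    (T : EuclideanSpace ℝ (Fin d) ≃ₗ[ℝ] EuclideanSpace ℝ (Fin d))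
    (h : ∀ a : EuclideanSpace ℝ (Fin d), ‖a‖ = 1 → a ∈ mir (body T K o))
    (σ : Equiv.Perm (Fin d)) (ε : Fin d → ℝ) (hε : ∀ i, ε i = 1 ∨ ε i = -1) (c : Fin d → ℝ)
    (hc : o + ∑ i, c i • T.symm (EuclideanSpace.basisFun (Fin d) ℝ i) ∈ K) :
    o + ∑ i, (ε i * c i) • T.symm (EuclideanSpace.basisFun (Fin d) ℝ (σ i)) ∈ K := by
  have key : ∀ (τ : Equiv.Perm (Fin d)) (f : Fin d → ℝ),
      ‖∑ i, f i • EuclideanSpace.basisFun (Fin d) ℝ (τ i)‖ ^ 2 = ∑ i, f i * f i := by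
    intro τ f
    have ho : Orthonormal ℝ (fun i => EuclideanSpace.basisFun (Fin d) ℝ (τ i)) :=
      (EuclideanSpace.basisFun (Fin d) ℝ).orthonormal.comp τ τ.injective
    rw [← real_inner_self_eq_norm_sq, ho.inner_sum]
    simp
  have hmem : ∀ (τ : Equiv.Perm (Fin d)) (f : Fin d → ℝ),
      (∑ i, f i • EuclideanSpace.basisFun (Fin d) ℝ (τ i)) ∈ body T K o ↔
        o + ∑ i, f i • T.symm (EuclideanSpace.basisFun (Fin d) ℝ (τ i)) ∈ K := by
    intro τ f
    simp only [body, Set.mem_ofPred_eq, map_sum, map_smul]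
  rw [← hmem σ]
  refine sphere_invariant h (x := ∑ i, c i • EuclideanSpace.basisFun (Fin d) ℝ ((1 : Equiv.Perm (Fin d)) i)) ?_ ?_
  · have h1 := key 1 c
    have h2 := key σ (fun i => ε i * c i)
    have h3 : ∑ i, (ε i * c i) * (ε i * c i) = ∑ i, c i * c i := by
      refine Finset.sum_congr rfl fun i _ => ?_
      rcases hε i with e | e <;> rw [e] <;> ring
    rw [h3, ← h1] at h2
    exact (sq_eq_sq₀ (norm_nonneg _) (norm_nonneg _)).mp h2.symm
  · rw [hmem 1]
    simpa using hc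

theorem symD_of_ball {K : Set (EuclideanSpace ℝ (Fin d))} {o : EuclideanSpace ℝ (Fin d)}
    (T : EuclideanSpace ℝ (Fin d) ≃ₗ[ℝ] EuclideanSpace ℝ (Fin d))
    (h : ∀ a : EuclideanSpace ℝ (Fin d), ‖a‖ = 1 → a ∈ mir (body T K o)) : RG.SymD K o :=
  ⟨_, linearIndependent_std T, fun σ ε hε _ c hc => signed_perm T h σ ε hε c hc⟩

/-- Row `Ball`. -/
theorem ball (hd : 3 ≤ d) (T : EuclideanSpace ℝ (Fin d) ≃ₗ[ℝ] EuclideanSpace ℝ (Fin d))
    {K : Set (EuclideanSpace ℝ (Fin d))} {o : EuclideanSpace ℝ (Fin d)}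
    (hconv : Convex ℝ K) (hcomp : IsCompact K) (hint : (interior K).Nonempty)
    (h : ∀ a : EuclideanSpace ℝ (Fin d), ‖a‖ = 1 → a ∈ mir (body T K o)) : RG.Good K o := by
  rcases Nat.lt_or_ge 3 d with h3 | h3
  · exact RG.main_D (by omega) hconv hcomp hint (symD_of_ball T h)
  · obtain rfl : d = 3 := by omega
    exact RG.main_A le_rfl hconv hcomp hint (RG.symA_three (symD_of_ball T h))

/-- Row `Ball3`. -/
theorem ball3 (T : EuclideanSpace ℝ (Fin 3) ≃ₗ[ℝ] EuclideanSpace ℝ (Fin 3))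
    {K : Set (EuclideanSpace ℝ (Fin 3))} {o : EuclideanSpace ℝ (Fin 3)}
    (h : ∀ a : EuclideanSpace ℝ (Fin 3), ‖a‖ = 1 → a ∈ mir (body T K o)) :
    TetK K o (fun i => T.symm (EuclideanSpace.basisFun (Fin 3) ℝ i)) := by
  refine ⟨linearIndependent_std T, fun x y z hx => ?_, fun x y z hx => ?_⟩
  · have h1 := signed_perm T h 1 ![1, -1, -1]
      (by intro i; fin_cases i <;> simp) ![x, y, z]
      (by simpa [Fin.sum_univ_three, add_assoc] using hx)
    simpa [Fin.sum_univ_three, add_assoc, sub_eq_add_neg] using h1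
  · have h1 := signed_perm T h (finRotate 3) ![1, 1, 1]
      (by intro i; fin_cases i <;> simp) ![x, y, z]
      (by simpa [Fin.sum_univ_three, add_assoc] using hx)
    simpa [Fin.sum_univ_three, add_assoc, finRotate_apply] using h1

end Pool.Agent.Lib.MP_5e7226_co.IN
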