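import Mathlib
set_option autoImplicit false
open Real Filter Topology MeasureTheory
open scoped RealInnerProductSpace

namespace Pool.Agent.Lib.MP_5e7226_co.IN

variable {d : ℕ}

lemma abs_det_eq_one {C : Set (EuclideanSpace ℝ (Fin d))} (hcomp : IsCompact C) (hint : (interior C).Nonempty)
    {g : (EuclideanSpace ℝ (Fin d)) ≃ₗ[ℝ] (EuclideanSpace ℝ (Fin d))} (hg : g '' C = C) : |LinearMap.det (g : (EuclideanSpace ℝ (Fin d)) →ₗ[ℝ] (EuclideanSpace ℝ (Fin d)))| = 1 := by
  have h1 := MeasureTheory.Measure.addHaar_image_linearMap (volume : Measure (EuclideanSpace ℝ (Fin d)))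
    (g : (EuclideanSpace ℝ (Fin d)) →ₗ[ℝ] (EuclideanSpace ℝ (Fin d))) C
  have h2 : ((g : (EuclideanSpace ℝ (Fin d)) →ₗ[ℝ] (EuclideanSpace ℝ (Fin d))) : (EuclideanSpace ℝ (Fin d)) → (EuclideanSpace ℝ (Fin d))) '' C = C := hg
  rw [h2] at h1
  have hfin : volume C ≠ ⊤ := hcomp.measure_lt_top.ne
  have hpos : volume C ≠ 0 := (lt_of_lt_of_le (isOpen_interior.measure_pos volume hint) (measure_mono interior_subset)).ne'
  have h3 : (1 : ENNReal) * volume C =
      ENNReal.ofReal |LinearMap.det (g : (EuclideanSpace ℝ (Fin d)) →ₗ[ℝ] (EuclideanSpace ℝ (Fin d)))| * volume C := by rw [one_mul]; exact h1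
  have h4 := (ENNReal.mul_left_inj hpos hfin).1 h3
  have h5 := congrArg ENNReal.toReal h4
  rw [ENNReal.toReal_ofReal (abs_nonneg _)] at h5
  simpa using h5.symm

lemma integral_comp_sym {C : Set (EuclideanSpace ℝ (Fin d))} (hcomp : IsCompact C) (hint : (interior C).Nonempty)
    {g : (EuclideanSpace ℝ (Fin d)) ≃ₗ[ℝ] (EuclideanSpace ℝ (Fin d))} (hg : g '' C = C) (f : (EuclideanSpace ℝ (Fin d)) → ℝ) :
    ∫ x in C, f (g x) = ∫ x in C, f x := by
  have hdet := abs_det_eq_one hcomp hint hg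
  have hdet0 : LinearMap.det (g : (EuclideanSpace ℝ (Fin d)) →ₗ[ℝ] (EuclideanSpace ℝ (Fin d))) ≠ 0 := by
    intro h; rw [h, abs_zero] at hdet; exact zero_ne_one hdet
  have hcont : Continuous g := LinearMap.continuous_of_finiteDimensional (g : (EuclideanSpace ℝ (Fin d)) →ₗ[ℝ] (EuclideanSpace ℝ (Fin d)))
  have hmp : MeasurePreserving g (volume : Measure (EuclideanSpace ℝ (Fin d))) volume := by
    refine ⟨hcont.measurable, ?_⟩
    have h1 := MeasureTheory.Measure.map_linearMap_addHaar_eq_smul_addHaar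
      (volume : Measure (EuclideanSpace ℝ (Fin d))) hdet0
    have h2 : Measure.map g (volume : Measure (EuclideanSpace ℝ (Fin d))) =
        Measure.map (g : (EuclideanSpace ℝ (Fin d)) →ₗ[ℝ] (EuclideanSpace ℝ (Fin d))) (volume : Measure (EuclideanSpace ℝ (Fin d))) := rfl
    rw [h2, h1, abs_inv, hdet, inv_one, ENNReal.ofReal_one, one_smul]
  have hemb : MeasurableEmbedding g :=
    (g.toContinuousLinearEquiv.toHomeomorph).measurableEmbedding
  have h3 := hmp.setIntegral_preimage_emb hemb f C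
  have h4 : g ⁻¹' C = C := by
    ext x
    constructor
    · intro hx
      rw [← hg] at hx
      obtain ⟨y, hy, hxy⟩ := hx
      rw [← g.injective hxy]; exact hy
    · intro hx
      have : g x ∈ g '' C := ⟨x, hx, rfl⟩
      rwa [hg] at this
  rw [h4] at h3
  exact h3

/-- the covariance form of `C` (on the dual side) -/
noncomputable def cov (C : Set (EuclideanSpace ℝ (Fin d))) (hcomp : IsCompact C) : LinearMap.BilinForm ℝ (EuclideanSpace ℝ (Fin d)) :=
  LinearMap.mk₂ ℝ (fun u v => ∫ x in C, ⟪u, x⟫ * ⟪v, x⟫)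
    (fun u u' v => by
      rw [← integral_add]
      · refine integral_congr_ae (Eventually.of_forall fun x => ?_)
        simp only [inner_add_left]; ring
      · exact (Continuous.continuousOn (by fun_prop)).integrableOn_compact hcomp
      · exact (Continuous.continuousOn (by fun_prop)).integrableOn_compact hcomp)
    (fun r u v => by
      rw [smul_eq_mul, ← integral_const_mul]
      refine integral_congr_ae (Eventually.of_forall fun x => ?_)
      simp only [real_inner_smul_left]; ring)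
    (fun u v v' => by
      rw [← integral_add]
      · refine integral_congr_ae (Eventually.of_forall fun x => ?_)
        simp only [inner_add_left]; ring
      · exact (Continuous.continuousOn (by fun_prop)).integrableOn_compact hcomp
      · exact (Continuous.continuousOn (by fun_prop)).integrableOn_compact hcomp)
    (fun r u v => by
      rw [smul_eq_mul, ← integral_const_mul]
      refine integral_congr_ae (Eventually.of_forall fun x => ?_)
      simp only [real_inner_smul_left]; ring)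

lemma cov_apply (C : Set (EuclideanSpace ℝ (Fin d))) (hcomp : IsCompact C) (u v : (EuclideanSpace ℝ (Fin d))) :
    cov C hcomp u v = ∫ x in C, ⟪u, x⟫ * ⟪v, x⟫ := rfl

lemma cov_symm (C : Set (EuclideanSpace ℝ (Fin d))) (hcomp : IsCompact C) (u v : (EuclideanSpace ℝ (Fin d))) :
    cov C hcomp u v = cov C hcomp v u := by
  rw [cov_apply, cov_apply]
  refine integral_congr_ae (Eventually.of_forall fun x => ?_)
  simp only []; ring

lemma cov_pos {C : Set (EuclideanSpace ℝ (Fin d))} (hcomp : IsCompact C) (hint : (interior C).Nonempty) {u : (EuclideanSpace ℝ (Fin d))}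
    (hu : u ≠ 0) : 0 < cov C hcomp u u := by
  rw [cov_apply]
  have hcont : Continuous fun x : (EuclideanSpace ℝ (Fin d)) => ⟪u, x⟫ * ⟪u, x⟫ := by fun_prop
  have hint' : IntegrableOn (fun x : (EuclideanSpace ℝ (Fin d)) => ⟪u, x⟫ * ⟪u, x⟫) C := hcont.continuousOn.integrableOn_compact hcomp
  rw [setIntegral_pos_iff_support_of_nonneg_ae
    (Eventually.of_forall fun x => mul_self_nonneg _) hint']
  -- the support contains a nonempty open set
  have hopen : IsOpen (interior C ∩ {x : (EuclideanSpace ℝ (Fin d)) | ⟪u, x⟫ * ⟪u, x⟫ ≠ 0}) :=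
    isOpen_interior.inter (isOpen_ne_fun hcont continuous_const)
  have hne : (interior C ∩ {x : (EuclideanSpace ℝ (Fin d)) | ⟪u, x⟫ * ⟪u, x⟫ ≠ 0}).Nonempty := by
    obtain ⟨x, hx⟩ := hint
    by_cases h : ⟪u, x⟫ * ⟪u, x⟫ = 0
    · -- move a little in the direction u
      have hx0 : ⟪u, x⟫ = (0 : ℝ) := mul_self_eq_zero.1 h
      have hcurve : Continuous fun t : ℝ => x + t • u := by fun_prop
      have h2 : ∀ᶠ t in 𝓝 (0 : ℝ), x + t • u ∈ interior C := by
        have := hcurve.continuousAt (x := (0 : ℝ))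
        refine this.eventually_mem (isOpen_interior.mem_nhds (by simpa using hx))
      obtain ⟨e, he, hball⟩ := Metric.eventually_nhds_iff.1 h2
      have ht : (e / 2 : ℝ) ≠ 0 := (half_pos he).ne'
      have ht' : x + (e / 2) • u ∈ interior C := hball (by
        rw [Real.dist_eq, sub_zero, abs_of_pos (half_pos he)]; exact half_lt_self he)
      refine ⟨x + (e / 2) • u, ht', ?_⟩
      simp only [Set.mem_ofPred_eq, inner_add_right, real_inner_smul_right, hx0, zero_add]
      have huu : ⟪u, u⟫ ≠ (0 : ℝ) := by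
        rw [real_inner_self_eq_norm_sq]; exact pow_ne_zero 2 (norm_ne_zero_iff.2 hu)
      exact mul_ne_zero (mul_ne_zero ht huu) (mul_ne_zero ht huu)
    · exact ⟨x, hx, h⟩
  refine lt_of_lt_of_le (hopen.measure_pos volume hne) (measure_mono ?_)
  rintro x ⟨hx1, hx2⟩
  exact ⟨hx2, interior_subset hx1⟩

/-- a positive definite form is the square of the norm after a linear change of coordinates -/
lemma exists_norm_eq (B : LinearMap.BilinForm ℝ (EuclideanSpace ℝ (Fin d))) (hs : ∀ u v, B u v = B v u)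
    (hpos : ∀ u, u ≠ 0 → 0 < B u u) : ∃ S : (EuclideanSpace ℝ (Fin d)) ≃ₗ[ℝ] (EuclideanSpace ℝ (Fin d)), ∀ u, ‖S u‖ ^ 2 = B u u := by
  obtain ⟨v, hv⟩ := LinearMap.BilinForm.exists_orthogonal_basis (B := B) ⟨fun u v => by
    simpa using hs u v⟩
  have hfr : Module.finrank ℝ (EuclideanSpace ℝ (Fin d)) = d := by simp
  set w : Module.Basis (Fin d) ℝ (EuclideanSpace ℝ (Fin d)) := v.reindex (finCongr hfr) with hw
  have hwo : ∀ i j, i ≠ j → B (w i) (w j) = 0 := by
    intro i j hij
    simp only [hw, Module.Basis.reindex_apply]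
    exact hv (fun h => hij ((finCongr hfr).symm.injective h))
  have hwp : ∀ i, 0 < B (w i) (w i) := fun i => hpos _ (w.ne_zero i)
  -- scaled basis
  set c : Fin d → ℝ := fun i => √(B (w i) (w i)) with hc
  have hcp : ∀ i, 0 < c i := fun i => Real.sqrt_pos.2 (hwp i)
  set w' : Module.Basis (Fin d) ℝ (EuclideanSpace ℝ (Fin d)) := w.isUnitSMul (w := fun i => (c i)⁻¹)
    (fun i => (isUnit_iff_ne_zero.2 (inv_ne_zero (hcp i).ne'))) with hw'
  have hw'a : ∀ i, w' i = (c i)⁻¹ • w i := fun i => by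
    rw [hw', Module.Basis.isUnitSMul_apply]
  have horth : ∀ i j, B (w' i) (w' j) = if i = j then 1 else 0 := by
    intro i j
    simp only [hw'a, map_smul, LinearMap.smul_apply, smul_eq_mul]
    split_ifs with h
    · rw [← h]
      have : B (w i) (w i) = c i * c i := by
        rw [hc]; exact (Real.mul_self_sqrt (hwp i).le).symm
      rw [this]
      have := (hcp i).ne'
      field_simp
    · rw [hwo i j h, mul_zero, mul_zero]
  refine ⟨w'.equivFun ≪≫ₗ (WithLp.linearEquiv 2 ℝ (Fin d → ℝ)).symm, fun u => ?_⟩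
  have hu : u = ∑ i, w'.equivFun u i • w' i := (w'.sum_equivFun u).symm
  rw [EuclideanSpace.norm_sq_eq]
  conv_rhs => rw [hu]
  simp only [map_sum, LinearMap.sum_apply, map_smul, LinearMap.smul_apply, smul_eq_mul,
    horth, mul_ite, mul_one, mul_zero]
  refine Finset.sum_congr rfl fun i _ => ?_
  rw [Finset.sum_ite_eq' Finset.univ i, if_pos (Finset.mem_univ i), Real.norm_eq_abs, sq_abs]
  show (w'.equivFun u i) ^ 2 = _
  ring

/-- some linear change of coordinates makes all linear symmetries of `K` about `o` isometries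
(`Sym K o g` unfolded) -/
theorem cov_exists {K : Set (EuclideanSpace ℝ (Fin d))} {o : (EuclideanSpace ℝ (Fin d))} (hcomp : IsCompact K) (hint : (interior K).Nonempty) :
    ∃ T : (EuclideanSpace ℝ (Fin d)) ≃ₗ[ℝ] (EuclideanSpace ℝ (Fin d)), ∀ g : (EuclideanSpace ℝ (Fin d)) ≃ₗ[ℝ] (EuclideanSpace ℝ (Fin d)), (∀ x, o + x ∈ K ↔ o + g x ∈ K) →
      ∀ x, ‖T (g x)‖ = ‖T x‖ := by
  set C : Set (EuclideanSpace ℝ (Fin d)) := (fun x => o + x) ⁻¹' K with hC
  have hCc : IsCompact C := by
    have := (Homeomorph.addLeft o).isCompact_preimage.2 hcomp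
    exact this
  have hCi : (interior C).Nonempty := by
    have h1 : interior C = (Homeomorph.addLeft o) ⁻¹' interior K :=
      ((Homeomorph.addLeft o).preimage_interior K).symm
    rw [h1]
    obtain ⟨x, hx⟩ := hint
    exact ⟨-o + x, by simpa using hx⟩
  obtain ⟨S, hS⟩ := exists_norm_eq (cov C hCc) (cov_symm C hCc)
    (fun u hu => cov_pos hCc hCi hu)
  -- T is the adjoint of the inverse of S
  set S₁ : (EuclideanSpace ℝ (Fin d)) →ₗ[ℝ] (EuclideanSpace ℝ (Fin d)) := (S : (EuclideanSpace ℝ (Fin d)) →ₗ[ℝ] (EuclideanSpace ℝ (Fin d))) with hS₁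
  set S₂ : (EuclideanSpace ℝ (Fin d)) →ₗ[ℝ] (EuclideanSpace ℝ (Fin d)) := (S.symm : (EuclideanSpace ℝ (Fin d)) →ₗ[ℝ] (EuclideanSpace ℝ (Fin d))) with hS₂
  have h12 : S₁ ∘ₗ S₂ = LinearMap.id := by
    ext1 x; simp [hS₁, hS₂]
  have h21 : S₂ ∘ₗ S₁ = LinearMap.id := by
    ext1 x; simp [hS₁, hS₂]
  have hid : LinearMap.adjoint (LinearMap.id : (EuclideanSpace ℝ (Fin d)) →ₗ[ℝ] (EuclideanSpace ℝ (Fin d))) = LinearMap.id := by
    refine ((LinearMap.eq_adjoint_iff _ _).2 fun x y => ?_).symm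
    simp
  have a12 : LinearMap.adjoint S₂ ∘ₗ LinearMap.adjoint S₁ = LinearMap.id := by
    rw [← LinearMap.adjoint_comp, h12, hid]
  have a21 : LinearMap.adjoint S₁ ∘ₗ LinearMap.adjoint S₂ = LinearMap.id := by
    rw [← LinearMap.adjoint_comp, h21, hid]
  refine ⟨LinearEquiv.ofLinearMap (LinearMap.adjoint S₂) (LinearMap.adjoint S₁) a12 a21, ?_⟩
  intro g hg x
  have hgC : g '' C = C := by
    ext y
    constructor
    · rintro ⟨z, hz, rfl⟩
      exact (hg z).1 hz
    · intro hy
      refine ⟨g.symm y, (hg _).2 ?_, g.apply_symm_apply y⟩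
      rw [g.apply_symm_apply]; exact hy
  set G : (EuclideanSpace ℝ (Fin d)) →ₗ[ℝ] (EuclideanSpace ℝ (Fin d)) := (g : (EuclideanSpace ℝ (Fin d)) →ₗ[ℝ] (EuclideanSpace ℝ (Fin d))) with hG
  have hSg : ∀ u, ‖S₁ (LinearMap.adjoint G u)‖ = ‖S₁ u‖ := by
    intro u
    have h1 : ‖S₁ (LinearMap.adjoint G u)‖ ^ 2 = ‖S₁ u‖ ^ 2 := by
      have e1 := hS (LinearMap.adjoint G u)
      have e2 := hS u
      rw [cov_apply] at e1 e2
      simp only [LinearMap.adjoint_inner_left] at e1
      rw [show ‖S₁ (LinearMap.adjoint G u)‖ ^ 2 = ‖S (LinearMap.adjoint G u)‖ ^ 2 from rfl, e1,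
        show ‖S₁ u‖ ^ 2 = ‖S u‖ ^ 2 from rfl, e2]
      exact integral_comp_sym hCc hCi hgC (fun y => ⟪u, y⟫ * ⟪u, y⟫)
    exact (sq_eq_sq₀ (norm_nonneg _) (norm_nonneg _)).1 h1
  set R : (EuclideanSpace ℝ (Fin d)) →ₗ[ℝ] (EuclideanSpace ℝ (Fin d)) := S₁ ∘ₗ (LinearMap.adjoint G ∘ₗ S₂) with hR
  have hRn : ∀ y, ‖R y‖ = ‖y‖ := fun y => by
    rw [hR, LinearMap.comp_apply, LinearMap.comp_apply, hSg]
    have := LinearMap.congr_fun h12 y
    rw [LinearMap.comp_apply, LinearMap.id_apply] at this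
    rw [this]
  have hRi : ∀ y z, ⟪R y, R z⟫ = (⟪y, z⟫ : ℝ) :=
    fun y z => (LinearIsometry.inner_map_map (⟨R, hRn⟩ : (EuclideanSpace ℝ (Fin d)) →ₗᵢ[ℝ] (EuclideanSpace ℝ (Fin d))) y z)
  have hinj : Function.Injective R := (⟨R, hRn⟩ : (EuclideanSpace ℝ (Fin d)) →ₗᵢ[ℝ] (EuclideanSpace ℝ (Fin d))).injective
  have hsurj : Function.Surjective R := LinearMap.injective_iff_surjective.1 hinj
  obtain ⟨w, hw⟩ := hsurj (LinearMap.adjoint S₂ x)
  have hadj : LinearMap.adjoint R (R w) = w := by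
    refine ext_inner_right ℝ fun z => ?_
    rw [LinearMap.adjoint_inner_left, hRi]
  have hadj2 : LinearMap.adjoint R (LinearMap.adjoint S₂ x) = LinearMap.adjoint S₂ (G x) := by
    rw [hR, LinearMap.adjoint_comp, LinearMap.adjoint_comp, LinearMap.adjoint_adjoint]
    simp only [LinearMap.comp_apply]
    have := LinearMap.congr_fun a21 x
    rw [LinearMap.comp_apply, LinearMap.id_apply] at this
    rw [this]
  show ‖LinearMap.adjoint S₂ (G x)‖ = ‖LinearMap.adjoint S₂ x‖
  rw [← hadj2, ← hw, hadj, hRn]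

end Pool.Agent.Lib.MP_5e7226_co.IN
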