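import Pool.Agent.Lib.MP_5e7226_co.RG.Fin3

set_option autoImplicit false

/-! The case of finitely many mirrors: the group generated by the mirror symmetries is finite. -/

namespace Pool.Agent.Lib.MP_5e7226_co.IN

open scoped InnerProductSpace
open Pool.Agent.Lib.MP_5e7226_co.RG

variable {d : ℕ}

theorem fing_sym_closure {K : Set (EuclideanSpace ℝ (Fin d))} {o : EuclideanSpace ℝ (Fin d)} :
    ∀ g ∈ Subgroup.closure {g : EuclideanSpace ℝ (Fin d) ≃ₗ[ℝ] EuclideanSpace ℝ (Fin d) |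
      IsRefl g ∧ ∀ x, o + x ∈ K ↔ o + g x ∈ K}, ∀ x, o + x ∈ K ↔ o + g x ∈ K := by
  intro g hg
  induction hg using Subgroup.closure_induction with
  | mem g hg => exact hg.2
  | one => intro x; rfl
  | mul g k _ _ hg hk =>
    intro x
    rw [LinearEquiv.mul_apply, ← hg, ← hk]
  | inv g _ hg =>
    intro x
    have h1 := hg (g⁻¹ x)
    have h2 : g (g⁻¹ x) = x := by
      rw [← LinearEquiv.mul_apply, mul_inv_cancel]
      rfl
    rw [h2] at h1
    exact h1.symm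

theorem fing_finite (hd : 3 ≤ d)
    {K : Set (EuclideanSpace ℝ (Fin d))} {o : EuclideanSpace ℝ (Fin d)}
    (T : EuclideanSpace ℝ (Fin d) ≃ₗ[ℝ] EuclideanSpace ℝ (Fin d))
    (hT : ∀ g : EuclideanSpace ℝ (Fin d) ≃ₗ[ℝ] EuclideanSpace ℝ (Fin d),
      (∀ x, o + x ∈ K ↔ o + g x ∈ K) → ∀ x, ‖T (g x)‖ = ‖T x‖)
    (hfin : {a : EuclideanSpace ℝ (Fin d) | ‖a‖ = 1 ∧ ∀ x, o + T.symm x ∈ K →
      o + T.symm (x - (2 * ⟪a, x⟫_ℝ) • a) ∈ K}.Finite)
    {W : Subgroup (EuclideanSpace ℝ (Fin d) ≃ₗ[ℝ] EuclideanSpace ℝ (Fin d))}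
    (hsym : ∀ g ∈ W, ∀ x, o + x ∈ K ↔ o + g x ∈ K)
    (hgen : W = Subgroup.closure {g | g ∈ W ∧ IsRefl g})
    (hirr : ∀ p : Submodule ℝ (EuclideanSpace ℝ (Fin d)),
      (∀ g ∈ W, ∀ x ∈ p, g x ∈ p) → p = ⊥ ∨ p = ⊤) : Finite W := by
  classical
  -- the form
  obtain ⟨B, hB⟩ : ∃ B : EuclideanSpace ℝ (Fin d) →ₗ[ℝ] EuclideanSpace ℝ (Fin d) →ₗ[ℝ] ℝ,
      ∀ x y, B x y = ⟪T x, T y⟫_ℝ :=
    ⟨LinearMap.mk₂ ℝ (fun x y => ⟪T x, T y⟫_ℝ)
      (fun x y z => by rw [map_add, inner_add_left])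
      (fun c x y => by rw [map_smul, real_inner_smul_left, smul_eq_mul])
      (fun x y z => by rw [map_add, inner_add_right])
      (fun c x y => by rw [map_smul, real_inner_smul_right, smul_eq_mul]),
      fun x y => rfl⟩
  have hBn : ∀ x, B x x = ‖T x‖ ^ 2 := fun x => by rw [hB, real_inner_self_eq_norm_sq]
  have hF : IsForm B W := by
    refine ⟨fun x y => ?_, fun x hx => ?_, fun g hg x y => ?_⟩
    · rw [hB, hB, real_inner_comm]
    · rw [hBn]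
      have : T x ≠ 0 := fun h => hx (by simpa using h)
      have := norm_pos_iff.mpr this
      positivity
    · have h := hT g (hsym g hg)
      have hinner : ∀ u v : EuclideanSpace ℝ (Fin d),
          ⟪u, v⟫_ℝ = (‖u + v‖ ^ 2 - ‖u‖ ^ 2 - ‖v‖ ^ 2) / 2 := by
        intro u v
        rw [← real_inner_self_eq_norm_sq, real_inner_add_add_self, real_inner_self_eq_norm_sq,
          real_inner_self_eq_norm_sq]
        ring
      rw [hB, hB, hinner, hinner, ← map_add, ← map_add, ← map_add, h, h, h]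
  have hfr : Module.finrank ℝ (EuclideanSpace ℝ (Fin d)) = d := by simp
  have hirr' : ∀ U : Submodule ℝ (EuclideanSpace ℝ (Fin d)),
      (∀ g ∈ W, U.map (g : EuclideanSpace ℝ (Fin d) →ₗ[ℝ] EuclideanSpace ℝ (Fin d)) ≤ U) →
        U = ⊥ ∨ U = ⊤ := by
    intro U hU
    exact hirr U fun g hg x hx => hU g hg ⟨x, hx, rfl⟩
  have hspan := span_Rts hF hgen hirr' (by rw [hfr]; omega)
  -- the roots are finitely many
  have hRfin : (Rts B W).Finite := by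
    have h1 : T '' (Rts B W) ⊆ {a : EuclideanSpace ℝ (Fin d) | ‖a‖ = 1 ∧ ∀ x, o + T.symm x ∈ K →
        o + T.symm (x - (2 * ⟪a, x⟫_ℝ) • a) ∈ K} := by
      rintro _ ⟨r, ⟨hr1, g, hg, hgx⟩, rfl⟩
      refine ⟨?_, fun x hx => ?_⟩
      · rw [hBn] at hr1
        nlinarith [norm_nonneg (T r)]
      · have h2 := (hsym g hg _).1 hx
        rw [hgx, hB, T.apply_symm_apply] at h2
        rw [map_sub, map_smul, T.symm_apply_apply]
        exact h2
    exact (hfin.subset h1).of_finite_image T.injective.injOn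
  -- `W` acts on the roots
  have hact : ∀ g ∈ W, ∀ r ∈ Rts B W, g r ∈ Rts B W := by
    rintro g hg r ⟨hr1, k, hk, hkx⟩
    refine ⟨by rw [hF.inv g hg, hr1], g * k * g⁻¹, W.mul_mem (W.mul_mem hg hk) (W.inv_mem hg),
      fun x => ?_⟩
    have h2 : g (g⁻¹ x) = x := by
      rw [← LinearEquiv.mul_apply, mul_inv_cancel]
      rfl
    have h3 : B r (g⁻¹ x) = B (g r) x := by
      rw [← hF.inv g hg r (g⁻¹ x), h2]
    rw [LinearEquiv.mul_apply, LinearEquiv.mul_apply, hkx, map_sub, map_smul, h2, h3]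
  have : Finite (Rts B W) := hRfin
  refine Finite.of_injective
    (fun g : W => fun r : Rts B W => (⟨g.1 r.1, hact g.1 g.2 r.1 r.2⟩ : Rts B W)) ?_
  intro g k hgk
  apply Subtype.ext
  apply LinearEquiv.toLinearMap_injective
  refine LinearMap.ext_on hspan fun r hr => ?_
  have := congrArg Subtype.val (congrFun hgk ⟨r, hr⟩)
  exact this

/-- **(Fing)** Finitely many mirrors. -/
theorem fing (hd : 3 ≤ d)
    {K : Set (EuclideanSpace ℝ (Fin d))} {o : EuclideanSpace ℝ (Fin d)}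
    (T : EuclideanSpace ℝ (Fin d) ≃ₗ[ℝ] EuclideanSpace ℝ (Fin d))
    (hT : ∀ g : EuclideanSpace ℝ (Fin d) ≃ₗ[ℝ] EuclideanSpace ℝ (Fin d),
      (∀ x, o + x ∈ K ↔ o + g x ∈ K) → ∀ x, ‖T (g x)‖ = ‖T x‖)
    (hconv : Convex ℝ K) (hcomp : IsCompact K) (hint : (interior K).Nonempty)
    (hfin : {a : EuclideanSpace ℝ (Fin d) | ‖a‖ = 1 ∧ ∀ x, o + T.symm x ∈ K →
      o + T.symm (x - (2 * ⟪a, x⟫_ℝ) • a) ∈ K}.Finite)
    (hirr : ∀ p : Submodule ℝ (EuclideanSpace ℝ (Fin d)),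
      (∀ g : EuclideanSpace ℝ (Fin d) ≃ₗ[ℝ] EuclideanSpace ℝ (Fin d), IsRefl g →
        (∀ x, o + x ∈ K ↔ o + g x ∈ K) → ∀ x ∈ p, g x ∈ p) → p = ⊥ ∨ p = ⊤) :
    Good K o := by
  obtain ⟨W, hW⟩ : ∃ W : Subgroup (EuclideanSpace ℝ (Fin d) ≃ₗ[ℝ] EuclideanSpace ℝ (Fin d)),
      W = Subgroup.closure {g | IsRefl g ∧ ∀ x, o + x ∈ K ↔ o + g x ∈ K} := ⟨_, rfl⟩
  have hsym : ∀ g ∈ W, ∀ x, o + x ∈ K ↔ o + g x ∈ K := by
    rw [hW]; exact fing_sym_closure
  have hgenW : ∀ g, IsRefl g → (∀ x, o + x ∈ K ↔ o + g x ∈ K) → g ∈ W := by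
    intro g h1 h2
    rw [hW]
    exact Subgroup.subset_closure ⟨h1, h2⟩
  have hgen : Subgroup.closure {g | g ∈ W ∧ IsRefl g} = W := by
    refine le_antisymm ((Subgroup.closure_le W).2 fun g hg => hg.1) ?_
    conv_lhs => rw [hW]
    refine (Subgroup.closure_le _).2 fun g hg => ?_
    exact Subgroup.subset_closure ⟨hgenW g hg.1 hg.2, hg.1⟩
  have hirrW : ∀ p : Submodule ℝ (EuclideanSpace ℝ (Fin d)),
      (∀ g ∈ W, ∀ x ∈ p, g x ∈ p) → p = ⊥ ∨ p = ⊤ := by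
    intro p hp
    exact hirr p fun g h1 h2 => hp g (hgenW g h1 h2)
  have : Finite W := fing_finite hd T hT hfin hsym hgen.symm hirrW
  exact final_group hd hgen hirrW hconv hcomp hint fun g hg x => (hsym g hg x).1

end Pool.Agent.Lib.MP_5e7226_co.IN
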