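import Mathlib
set_option autoImplicit false
open Real Filter Topology
open scoped RealInnerProductSpace

namespace Pool.Agent.Lib.MP_5e7226_co.V4

variable {V : Type*} [NormedAddCommGroup V] [InnerProductSpace ℝ V]

/-- the point of the great circle through a, c at angle t -/
noncomputable def rot (a c : V) (t : ℝ) : V := Real.cos t • a + Real.sin t • c

lemma rot_zero (a c : V) : rot a c 0 = a := by simp [rot]

lemma inner_rot {a c : V} (ha : ‖a‖ = 1) (hc : ‖c‖ = 1) (hac : ⟪a, c⟫ = 0) (s t : ℝ) :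
    ⟪rot a c s, rot a c t⟫ = Real.cos (s - t) := by
  have haa : ⟪a, a⟫ = (1 : ℝ) := by rw [real_inner_self_eq_norm_sq, ha]; norm_num
  have hcc : ⟪c, c⟫ = (1 : ℝ) := by rw [real_inner_self_eq_norm_sq, hc]; norm_num
  have hca : ⟪c, a⟫ = (0 : ℝ) := by rw [real_inner_comm]; exact hac
  simp only [rot, inner_add_left, inner_add_right, real_inner_smul_left, real_inner_smul_right,
    haa, hcc, hac, hca, Real.cos_sub]
  ring

lemma refl_rot {a c : V} (ha : ‖a‖ = 1) (hc : ‖c‖ = 1) (hac : ⟪a, c⟫ = 0) (s t : ℝ) :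
    rot a c t - (2 * ⟪rot a c s, rot a c t⟫) • rot a c s = - rot a c (2 * s - t) := by
  rw [inner_rot ha hc hac]
  have h1 : Real.cos (2 * s - t) = 2 * Real.cos (s - t) * Real.cos s - Real.cos t := by
    have : (2 * s - t) = (s - t) + s := by ring
    have h2 : t = s - (s - t) := by ring
    rw [this, Real.cos_add]
    conv_rhs => rw [h2]
    rw [show s - (s - (s - t)) = s - t by ring, Real.cos_sub s (s - t)]
    ring
  have h3 : Real.sin (2 * s - t) = 2 * Real.cos (s - t) * Real.sin s - Real.sin t := by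
    have : (2 * s - t) = (s - t) + s := by ring
    have h2 : t = s - (s - t) := by ring
    rw [this, Real.sin_add]
    conv_rhs => rw [h2]
    rw [show s - (s - (s - t)) = s - t by ring, Real.sin_sub s (s - t)]
    ring
  simp only [rot, h1, h3]
  module

/-- multiples of an angle stay in a set closed under its own reflections -/
lemma rot_nat_mem {Φ : Set V} (hneg : ∀ a ∈ Φ, -a ∈ Φ)
    (hrefl : ∀ a ∈ Φ, ∀ b ∈ Φ, b - (2 * ⟪a, b⟫) • a ∈ Φ)
    {a c : V} (ha : ‖a‖ = 1) (hc : ‖c‖ = 1) (hac : ⟪a, c⟫ = 0) {θ : ℝ}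
    (h0 : a ∈ Φ) (h1 : rot a c θ ∈ Φ) (k : ℕ) :
    rot a c (k * θ) ∈ Φ ∧ rot a c ((k + 1 : ℕ) * θ) ∈ Φ := by
  induction k with
  | zero => exact ⟨by simpa [rot_zero] using h0, by simpa using h1⟩
  | succ k ih =>
    refine ⟨ih.2, ?_⟩
    have h := hneg _ (hrefl _ ih.2 _ ih.1)
    rw [refl_rot ha hc hac, neg_neg] at h
    convert h using 2
    push_cast
    ring

/-- (L1) an accumulation direction of Φ at a gives a whole great circle in Φ -/
theorem circle_of_limit {Φ : Set V} (hcl : IsClosed Φ) (hneg : ∀ a ∈ Φ, -a ∈ Φ)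
    (hrefl : ∀ a ∈ Φ, ∀ b ∈ Φ, b - (2 * ⟪a, b⟫) • a ∈ Φ)
    {a c : V} (ha : ‖a‖ = 1) (hc : ‖c‖ = 1) (h0 : a ∈ Φ)
    {b : ℕ → V} (hb : ∀ n, b n ∈ Φ) (hb1 : ∀ n, ‖b n‖ = 1) (hne : ∀ n, b n ≠ a)
    {ε : ℕ → ℝ} (hε : ∀ n, 0 < ε n) (hε0 : Tendsto ε atTop (𝓝 0))
    (hlim : Tendsto (fun n => (ε n)⁻¹ • (b n - a)) atTop (𝓝 c)) :
    ⟪a, c⟫ = 0 ∧ ∀ t : ℝ, rot a c t ∈ Φ := by
  have haa : ⟪a, a⟫ = (1 : ℝ) := by rw [real_inner_self_eq_norm_sq, ha]; norm_num
  have hbb : ∀ n, ⟪b n, b n⟫ = (1 : ℝ) := fun n => by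
    rw [real_inner_self_eq_norm_sq, hb1]; norm_num
  -- norms
  have hnorm : Tendsto (fun n => (ε n)⁻¹ * ‖b n - a‖) atTop (𝓝 1) := by
    have := hlim.norm
    rw [hc] at this
    refine this.congr fun n => ?_
    rw [norm_smul, Real.norm_of_nonneg (inv_nonneg.2 (hε n).le)]
  have hsq : ∀ n, ‖b n - a‖ ^ 2 = 2 - 2 * ⟪a, b n⟫ := fun n => by
    rw [← real_inner_self_eq_norm_sq, inner_sub_left, inner_sub_right, inner_sub_right, haa, hbb,
      real_inner_comm (b n) a]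
    ring
  have hd : Tendsto (fun n => ε n * ((ε n)⁻¹ * ‖b n - a‖)) atTop (𝓝 0) := by
    simpa using hε0.mul hnorm
  have hd' : Tendsto (fun n => ‖b n - a‖) atTop (𝓝 0) := by
    refine hd.congr fun n => ?_
    rw [← mul_assoc, mul_inv_cancel₀ (hε n).ne', one_mul]
  -- (1 - <a,b>)/ε → 0
  have h1 : Tendsto (fun n => (ε n)⁻¹ * (1 - ⟪a, b n⟫)) atTop (𝓝 0) := by
    have := (hnorm.mul hd').const_mul (1 / 2 : ℝ)
    rw [mul_zero, mul_zero] at this
    refine this.congr fun n => ?_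
    have := hsq n
    have h2 : ‖b n - a‖ * ‖b n - a‖ = 2 - 2 * ⟪a, b n⟫ := by rw [← this]; ring
    calc 1 / 2 * ((ε n)⁻¹ * ‖b n - a‖ * ‖b n - a‖)
        = 1 / 2 * ((ε n)⁻¹ * (‖b n - a‖ * ‖b n - a‖)) := by ring
      _ = (ε n)⁻¹ * (1 - ⟪a, b n⟫) := by rw [h2]; ring
  have hac : ⟪a, c⟫ = 0 := by
    have h2 : Tendsto (fun n => ⟪a, (ε n)⁻¹ • (b n - a)⟫) atTop (𝓝 ⟪a, c⟫) :=
      tendsto_const_nhds.inner hlim
    have h3 : Tendsto (fun n => -((ε n)⁻¹ * (1 - ⟪a, b n⟫))) atTop (𝓝 0) := by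
      simpa using h1.neg
    refine tendsto_nhds_unique h2 (h3.congr fun n => ?_)
    rw [real_inner_smul_right, inner_sub_right, haa]
    ring
  refine ⟨hac, ?_⟩
  -- the angle
  set θ : ℕ → ℝ := fun n => Real.arccos ⟪a, b n⟫ with hθ
  have hle : ∀ n, |⟪a, b n⟫| ≤ 1 := fun n => by
    have := abs_real_inner_le_norm a (b n)
    rwa [ha, hb1, one_mul] at this
  have hcos : ∀ n, Real.cos (θ n) = ⟪a, b n⟫ := fun n =>
    Real.cos_arccos (abs_le.1 (hle n)).1 (abs_le.1 (hle n)).2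
  have hlt : ∀ n, ⟪a, b n⟫ < 1 := fun n => by
    have h := hsq n
    have h2 : 0 < ‖b n - a‖ := norm_pos_iff.2 (sub_ne_zero.2 (hne n))
    nlinarith [sq_pos_of_pos h2]
  have hin : Tendsto (fun n => ⟪a, b n⟫) atTop (𝓝 1) := by
    have h2 : Tendsto (fun n => 1 - ‖b n - a‖ ^ 2 / 2) atTop (𝓝 1) := by
      have := ((hd'.pow 2).div_const 2).const_sub 1
      simpa using this
    refine h2.congr fun n => ?_
    rw [hsq]; ring
  have hθ0 : Tendsto θ atTop (𝓝 0) := by
    have := (Real.continuous_arccos.tendsto 1).comp hin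
    rwa [Real.arccos_one] at this
  have hθpos : ∀ n, 0 < θ n := fun n => Real.arccos_pos.2 (hlt n)
  have hev : ∀ᶠ n in atTop, θ n < Real.pi := hθ0.eventually_lt_const Real.pi_pos
  -- the direction
  set w : ℕ → V := fun n => b n - Real.cos (θ n) • a with hw
  have hwnorm : ∀ n, ‖w n‖ = Real.sin (θ n) := fun n => by
    have h2 : ‖w n‖ ^ 2 = Real.sin (θ n) ^ 2 := by
      rw [← real_inner_self_eq_norm_sq, hw]
      simp only [inner_sub_left, inner_sub_right, real_inner_smul_left, real_inner_smul_right,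
        haa, hbb, hcos, Real.sin_sq]
      rw [real_inner_comm (b n) a]
      ring
    have h3 : 0 ≤ Real.sin (θ n) :=
      Real.sin_nonneg_of_nonneg_of_le_pi (hθpos n).le (Real.arccos_le_pi _)
    exact (sq_eq_sq₀ (norm_nonneg _) h3).1 h2
  have hwlim : Tendsto (fun n => (ε n)⁻¹ • w n) atTop (𝓝 c) := by
    have h2 := hlim.add ((h1.smul_const a))
    rw [zero_smul, add_zero] at h2
    refine h2.congr fun n => ?_
    rw [hw]
    simp only [hcos]
    module
  have hslim : Tendsto (fun n => (ε n)⁻¹ * Real.sin (θ n)) atTop (𝓝 1) := by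
    have := hwlim.norm
    rw [hc] at this
    refine this.congr fun n => ?_
    rw [norm_smul, Real.norm_of_nonneg (inv_nonneg.2 (hε n).le), hwnorm]
  set cn : ℕ → V := fun n => (Real.sin (θ n))⁻¹ • w n with hcn
  have hcnlim : Tendsto cn atTop (𝓝 c) := by
    have h2 := (hslim.inv₀ one_ne_zero).smul hwlim
    rw [inv_one, one_smul] at h2
    refine h2.congr fun n => ?_
    rw [hcn, smul_smul, mul_inv, inv_inv]
    congr 1
    have := (hε n).ne'
    field_simp
  intro t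
  -- reduce to t ≥ 0
  obtain ⟨m, hm⟩ : ∃ m : ℕ, 0 ≤ t + m * (2 * Real.pi) := by
    obtain ⟨m, hm⟩ := exists_nat_ge (-t / (2 * Real.pi))
    refine ⟨m, ?_⟩
    have h2 : 0 < 2 * Real.pi := by positivity
    rw [div_le_iff₀ h2] at hm
    linarith
  set s : ℝ := t + m * (2 * Real.pi) with hs
  have hrs : rot a c s = rot a c t := by
    simp only [rot, hs, Real.cos_add_nat_mul_two_pi, Real.sin_add_nat_mul_two_pi]
  rw [← hrs]
  set k : ℕ → ℕ := fun n => ⌊s / θ n⌋₊ with hk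
  have hklim : Tendsto (fun n => (k n : ℝ) * θ n) atTop (𝓝 s) := by
    have hlo : Tendsto (fun n => s - θ n) atTop (𝓝 s) := by simpa using hθ0.const_sub s
    refine tendsto_of_tendsto_of_tendsto_of_le_of_le hlo tendsto_const_nhds ?_ ?_
    · intro n
      have h2 := Nat.lt_floor_add_one (s / θ n)
      rw [div_lt_iff₀ (hθpos n)] at h2
      have h3 : ((k n : ℝ) + 1) * θ n = k n * θ n + θ n := by ring
      simp only [hk] at h3 ⊢
      linarith
    · intro n
      have h2 := Nat.floor_le (div_nonneg hm (hθpos n).le)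
      rw [le_div_iff₀ (hθpos n)] at h2
      exact h2
  have hfin : Tendsto (fun n => rot a (cn n) (k n * θ n)) atTop (𝓝 (rot a c s)) := by
    unfold rot
    exact (((Real.continuous_cos.tendsto s).comp hklim).smul_const a).add
      (((Real.continuous_sin.tendsto s).comp hklim).smul hcnlim)
  refine hcl.mem_of_tendsto hfin ?_
  filter_upwards [hev] with n hn
  have hsin : 0 < Real.sin (θ n) := Real.sin_pos_of_pos_of_lt_pi (hθpos n) hn
  have hcn1 : ‖cn n‖ = 1 := by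
    rw [hcn, norm_smul, Real.norm_of_nonneg (inv_nonneg.2 hsin.le), hwnorm,
      inv_mul_cancel₀ hsin.ne']
  have hcna : ⟪a, cn n⟫ = 0 := by
    rw [hcn, real_inner_smul_right, hw, inner_sub_right, real_inner_smul_right, haa, hcos]
    ring
  have hrb : rot a (cn n) (θ n) = b n := by
    rw [rot, hcn, smul_smul, mul_inv_cancel₀ hsin.ne', one_smul, hw]
    module
  exact (rot_nat_mem hneg hrefl ha hcn1 hcna h0 (by rw [hrb]; exact hb n) (k n)).1


/-- (L1) for a nonzero direction of any length -/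
theorem unit_of_limit {Φ : Set V} (h1 : ∀ a ∈ Φ, ‖a‖ = 1) (hcl : IsClosed Φ)
    (hneg : ∀ a ∈ Φ, -a ∈ Φ) (hrefl : ∀ a ∈ Φ, ∀ b ∈ Φ, b - (2 * ⟪a, b⟫) • a ∈ Φ)
    {a c : V} (hc : c ≠ 0) (h0 : a ∈ Φ) {b : ℕ → V} (hb : ∀ n, b n ∈ Φ)
    {ε : ℕ → ℝ} (hε : ∀ n, 0 < ε n) (hε0 : Tendsto ε atTop (𝓝 0))
    (hlim : Tendsto (fun n => (ε n)⁻¹ • (b n - a)) atTop (𝓝 c)) :
    ⟪a, c⟫ = 0 ∧ ∀ s t : ℝ, ‖s • a + t • c‖ = 1 → s • a + t • c ∈ Φ := by
  have hN : 0 < ‖c‖ := norm_pos_iff.2 hc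
  have hev : ∀ᶠ n in atTop, b n ≠ a := by
    have h2 := hlim.norm.eventually (lt_mem_nhds hN)
    filter_upwards [h2] with n hn hba
    rw [hba, sub_self, smul_zero, norm_zero] at hn
    exact lt_irrefl _ hn
  obtain ⟨N, hNn⟩ := eventually_atTop.1 hev
  have ha := h1 a h0
  have key := circle_of_limit (c := ‖c‖⁻¹ • c) hcl hneg hrefl ha
    (by rw [norm_smul, norm_inv, norm_norm, inv_mul_cancel₀ hN.ne']) h0
    (b := fun n => b (n + N)) (fun n => hb _) (fun n => h1 _ (hb _))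
    (fun n => hNn _ (Nat.le_add_left _ _)) (ε := fun n => ‖c‖ * ε (n + N))
    (fun n => mul_pos hN (hε _))
    (by simpa using ((tendsto_add_atTop_iff_nat N).2 hε0).const_mul ‖c‖)
    (by
      have h2 := ((tendsto_add_atTop_iff_nat N).2 hlim).const_smul (‖c‖⁻¹)
      refine h2.congr fun n => ?_
      rw [smul_smul, mul_inv])
  have hac : ⟪a, c⟫ = 0 := by
    have := key.1
    rw [real_inner_smul_right] at this
    rcases mul_eq_zero.1 this with h | h
    · exact absurd h (inv_ne_zero hN.ne')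
    · exact h
  refine ⟨hac, fun s t hst => ?_⟩
  have h2 : s ^ 2 + (t * ‖c‖) ^ 2 = 1 := by
    have h3 : ‖s • a + t • c‖ ^ 2 = 1 := by rw [hst]; norm_num
    rw [← real_inner_self_eq_norm_sq, inner_add_left, inner_add_right, inner_add_right] at h3
    simp only [real_inner_smul_left, real_inner_smul_right] at h3
    rw [real_inner_comm a c, hac, real_inner_self_eq_norm_sq, real_inner_self_eq_norm_sq, ha] at h3
    linarith [h3]
  obtain ⟨τ, hs, ht⟩ : ∃ τ : ℝ, Real.cos τ = s ∧ Real.sin τ = t * ‖c‖ := by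
    refine ⟨(Complex.arg ⟨s, t * ‖c‖⟩), ?_, ?_⟩
    · have hne : (⟨s, t * ‖c‖⟩ : ℂ) ≠ 0 := by
        intro h
        have h5 := congrArg Complex.re h
        have h6 := congrArg Complex.im h
        simp only [Complex.zero_re, Complex.zero_im] at h5 h6
        rw [h5, h6] at h2; norm_num at h2
      rw [Complex.cos_arg hne]
      have : ‖(⟨s, t * ‖c‖⟩ : ℂ)‖ = 1 := by
        rw [Complex.norm_def, Complex.normSq_mk, show s * s + t * ‖c‖ * (t * ‖c‖) = 1 by nlinarith,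
          Real.sqrt_one]
      rw [this, div_one]
    · rw [Complex.sin_arg]
      have : ‖(⟨s, t * ‖c‖⟩ : ℂ)‖ = 1 := by
        rw [Complex.norm_def, Complex.normSq_mk, show s * s + t * ‖c‖ * (t * ‖c‖) = 1 by nlinarith,
          Real.sqrt_one]
      rw [this, div_one]
  have h4 := key.2 τ
  rw [rot, hs, ht, smul_smul, mul_assoc, mul_inv_cancel₀ hN.ne', mul_one] at h4
  exact h4

/-- (L2) the directions at `a` are closed under addition -/
theorem add_mem {Φ : Set V} (h1 : ∀ a ∈ Φ, ‖a‖ = 1) (hcl : IsClosed Φ)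
    (hneg : ∀ a ∈ Φ, -a ∈ Φ) (hrefl : ∀ a ∈ Φ, ∀ b ∈ Φ, b - (2 * ⟪a, b⟫) • a ∈ Φ)
    {a c₁ c₂ : V} (h0 : a ∈ Φ) (hc1 : ⟪a, c₁⟫ = 0) (hc2 : ⟪a, c₂⟫ = 0)
    (hu1 : ∀ s t : ℝ, ‖s • a + t • c₁‖ = 1 → s • a + t • c₁ ∈ Φ)
    (hu2 : ∀ s t : ℝ, ‖s • a + t • c₂‖ = 1 → s • a + t • c₂ ∈ Φ) :
    ∀ s t : ℝ, ‖s • a + t • (c₁ + c₂)‖ = 1 → s • a + t • (c₁ + c₂) ∈ Φ := by
  have ha := h1 a h0
  have haa : ⟪a, a⟫ = (1 : ℝ) := by rw [real_inner_self_eq_norm_sq, ha]; norm_num
  by_cases hc : c₁ + c₂ = 0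
  · intro s t hst
    rw [hc, smul_zero, add_zero] at hst ⊢
    rw [norm_smul, ha, mul_one, Real.norm_eq_abs] at hst
    rcases (abs_eq zero_le_one).1 hst with h | h
    · rw [h, one_smul]; exact h0
    · rw [h, neg_smul, one_smul]; exact hneg a h0
  -- the curves
  set A : ℝ := ⟪c₁, c₁⟫ with hA
  set B : ℝ := ⟪c₁, c₂⟫ with hB
  set C : ℝ := ⟪c₂, c₂⟫ with hC
  have hA0 : 0 ≤ A := real_inner_self_nonneg
  have hC0 : 0 ≤ C := real_inner_self_nonneg
  set g : ℝ → ℝ := fun e => (√(1 + e ^ 2 * A))⁻¹ with hg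
  set k : ℝ → ℝ := fun e => 2 * (1 - e ^ 2 * B / 2) / (1 + e ^ 2 * C / 4) with hk
  set b : ℝ → V := fun e => g e • (-a + e • c₁ + k e • (a + (e / 2) • c₂)) with hbdef
  have hpos1 : ∀ e : ℝ, 0 < 1 + e ^ 2 * A := fun e => by positivity
  have hpos2 : ∀ e : ℝ, 0 < 1 + e ^ 2 * C / 4 := fun e => by positivity
  have hca : ⟪c₁, a⟫ = (0 : ℝ) := by rw [real_inner_comm]; exact hc1
  have hcb : ⟪c₂, a⟫ = (0 : ℝ) := by rw [real_inner_comm]; exact hc2
  have hbmem : ∀ e, b e ∈ Φ := by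
    intro e
    -- p = normalised a + e c₁
    have hn1 : ‖a + e • c₁‖ ^ 2 = 1 + e ^ 2 * A := by
      rw [← real_inner_self_eq_norm_sq, inner_add_left, inner_add_right, inner_add_right]
      simp only [real_inner_smul_left, real_inner_smul_right, haa, hc1, hca, ← hA]
      ring
    have hn1' : ‖a + e • c₁‖ = √(1 + e ^ 2 * A) := by
      rw [← hn1, Real.sqrt_sq (norm_nonneg _)]
    have hp : g e • (a + e • c₁) ∈ Φ := by
      have h2 := hu1 (g e) (g e * e) (by
        have : g e • a + (g e * e) • c₁ = g e • (a + e • c₁) := by module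
        rw [this, norm_smul, hn1', hg, norm_inv, Real.norm_of_nonneg (Real.sqrt_nonneg _)]
        exact inv_mul_cancel₀ (Real.sqrt_pos.2 (hpos1 e)).ne')
      have : g e • a + (g e * e) • c₁ = g e • (a + e • c₁) := by module
      rwa [this] at h2
    have hn2 : ‖a + (e / 2) • c₂‖ ^ 2 = 1 + e ^ 2 * C / 4 := by
      rw [← real_inner_self_eq_norm_sq, inner_add_left, inner_add_right, inner_add_right]
      simp only [real_inner_smul_left, real_inner_smul_right, haa, hc2, hcb, ← hC]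
      ring
    have hn2' : ‖a + (e / 2) • c₂‖ = √(1 + e ^ 2 * C / 4) := by
      rw [← hn2, Real.sqrt_sq (norm_nonneg _)]
    set r : ℝ := (√(1 + e ^ 2 * C / 4))⁻¹ with hr
    have hr2 : r * r = (1 + e ^ 2 * C / 4)⁻¹ := by
      rw [hr, ← mul_inv, Real.mul_self_sqrt (hpos2 e).le]
    have hq : r • (a + (e / 2) • c₂) ∈ Φ := by
      have h2 := hu2 r (r * (e / 2)) (by
        have : r • a + (r * (e / 2)) • c₂ = r • (a + (e / 2) • c₂) := by module
        rw [this, norm_smul, hn2', hr, norm_inv, Real.norm_of_nonneg (Real.sqrt_nonneg _)]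
        exact inv_mul_cancel₀ (Real.sqrt_pos.2 (hpos2 e)).ne')
      have : r • a + (r * (e / 2)) • c₂ = r • (a + (e / 2) • c₂) := by module
      rwa [this] at h2
    have h3 := hrefl _ h0 _ hp
    have h4 := hrefl _ hq _ h3
    have e1 : g e • (a + e • c₁) - (2 * ⟪a, g e • (a + e • c₁)⟫) • a
        = g e • (-a + e • c₁) := by
      rw [real_inner_smul_right, inner_add_right, real_inner_smul_right, haa, hc1]
      module
    rw [e1] at h4
    have e2 : ⟪r • (a + (e / 2) • c₂), g e • (-a + e • c₁)⟫ = r * g e * (-1 + e ^ 2 * B / 2) := by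
      rw [real_inner_smul_left, real_inner_smul_right, inner_add_left, inner_add_right,
        inner_add_right, inner_neg_right, inner_neg_right]
      simp only [real_inner_smul_left, real_inner_smul_right, haa, hc1, hcb]
      rw [real_inner_comm c₁ c₂, ← hB]
      ring
    rw [e2] at h4
    have e3 : g e • (-a + e • c₁) -
        (2 * (r * g e * (-1 + e ^ 2 * B / 2))) • r • (a + (e / 2) • c₂) = b e := by
      have e4 : k e = 2 * (1 - e ^ 2 * B / 2) * (r * r) := by rw [hr2, hk]; rfl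
      rw [hbdef]
      simp only [e4]
      module
    rwa [e3] at h4
  -- the scalar function h = g (k - 1)
  have hgd : HasDerivAt g 0 0 := by
    have h2 : HasDerivAt (fun e : ℝ => 1 + e ^ 2 * A) 0 0 := by
      have := ((hasDerivAt_pow 2 (0 : ℝ)).mul_const A).const_add 1
      simpa using this
    have h3 := (h2.sqrt (by simp)).inv (by simp)
    exact (show HasDerivAt g _ 0 from h3).congr_deriv (by simp)
  have hkd : HasDerivAt k 0 0 := by
    have h2 : HasDerivAt (fun e : ℝ => 2 * (1 - e ^ 2 * B / 2)) 0 0 := by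
      have := ((((hasDerivAt_pow 2 (0 : ℝ)).mul_const B).div_const 2).const_sub 1).const_mul 2
      simpa using this
    have h3 : HasDerivAt (fun e : ℝ => 1 + e ^ 2 * C / 4) 0 0 := by
      have := (((hasDerivAt_pow 2 (0 : ℝ)).mul_const C).div_const 4).const_add 1
      simpa using this
    have h4 := h2.div h3 (by simp)
    exact (show HasDerivAt k _ 0 from h4).congr_deriv (by simp)
  have hg0 : g 0 = 1 := by simp [hg]
  have hk0 : k 0 = 2 := by simp [hk]
  have hbd : HasDerivAt b (c₁ + c₂) 0 := by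
    have h2 : HasDerivAt (fun e : ℝ => -a + e • c₁) c₁ 0 := by
      have := ((hasDerivAt_id (0 : ℝ)).smul_const c₁).const_add (-a)
      simpa using this
    have h3 : HasDerivAt (fun e : ℝ => a + (e / 2) • c₂) ((1 / 2 : ℝ) • c₂) 0 := by
      have := (((hasDerivAt_id (0 : ℝ)).div_const 2).smul_const c₂).const_add a
      simpa using this
    have h4 := hgd.smul (h2.add (hkd.smul h3))
    refine (show HasDerivAt b _ 0 from h4).congr_deriv ?_
    simp only [hg0, hk0, zero_smul, zero_div, add_zero, one_smul, smul_smul]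
    norm_num
  have hb0 : b 0 = a := by
    simp only [hbdef, hg0, hk0]
    simp only [zero_smul, zero_div, add_zero, one_smul]
    module
  have hε : Tendsto (fun n : ℕ => 1 / ((n : ℝ) + 1)) atTop (𝓝 0) :=
    tendsto_one_div_add_atTop_nhds_zero_nat
  have hεpos : ∀ n : ℕ, 0 < 1 / ((n : ℝ) + 1) := fun n => by positivity
  have hsl := hasDerivAt_iff_tendsto_slope_zero.1 hbd
  have hε' : Tendsto (fun n : ℕ => 1 / ((n : ℝ) + 1)) atTop (𝓝[≠] 0) :=
    tendsto_nhdsWithin_iff.2 ⟨hε, Eventually.of_forall fun n => (hεpos n).ne'⟩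
  have hfin := hsl.comp hε'
  refine (unit_of_limit h1 hcl hneg hrefl hc h0 (b := fun n : ℕ => b (1 / ((n : ℝ) + 1)))
    (fun n => hbmem _) hεpos hε ?_).2
  refine hfin.congr fun n => ?_
  simp only [Function.comp, zero_add, hb0]

/-- all `x` such that every unit vector of `span (a, x)` is in `Φ` -/
def uSet (Φ : Set V) (a : V) : Set V := {x | ∀ s t : ℝ, ‖s • a + t • x‖ = 1 → s • a + t • x ∈ Φ}

lemma unit_smul_mem {Φ : Set V} (h1 : ∀ a ∈ Φ, ‖a‖ = 1) (hneg : ∀ a ∈ Φ, -a ∈ Φ) {a : V}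
    (h0 : a ∈ Φ) {r : ℝ} (hr : ‖r • a‖ = 1) : r • a ∈ Φ := by
  rw [norm_smul, h1 a h0, mul_one, Real.norm_eq_abs] at hr
  rcases (abs_eq zero_le_one).1 hr with h | h
  · rw [h, one_smul]; exact h0
  · rw [h, neg_smul, one_smul]; exact hneg a h0

/-- the subspace U_a -/
def uSub {Φ : Set V} (h1 : ∀ a ∈ Φ, ‖a‖ = 1) (hcl : IsClosed Φ)
    (hneg : ∀ a ∈ Φ, -a ∈ Φ) (hrefl : ∀ a ∈ Φ, ∀ b ∈ Φ, b - (2 * ⟪a, b⟫) • a ∈ Φ)
    {a : V} (h0 : a ∈ Φ) : Submodule ℝ V where
  carrier := uSet Φ a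
  zero_mem' := by
    intro s t hst
    rw [smul_zero, add_zero] at hst ⊢
    exact unit_smul_mem h1 hneg h0 hst
  smul_mem' := by
    intro r x hx s t hst
    rw [smul_smul] at hst ⊢
    exact hx s (t * r) hst
  add_mem' := by
    intro x y hx hy s t hst
    have haa : ⟪a, a⟫ = (1 : ℝ) := by rw [real_inner_self_eq_norm_sq, h1 a h0]; norm_num
    have hperp : ∀ z : V, ⟪a, z - ⟪a, z⟫ • a⟫ = 0 := fun z => by
      rw [inner_sub_right, real_inner_smul_right, haa]; ring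
    have hmem : ∀ z ∈ uSet Φ a, ∀ s t : ℝ, ‖s • a + t • (z - ⟪a, z⟫ • a)‖ = 1 →
        s • a + t • (z - ⟪a, z⟫ • a) ∈ Φ := by
      intro z hz s t h
      have e : s • a + t • (z - ⟪a, z⟫ • a) = (s - t * ⟪a, z⟫) • a + t • z := by module
      rw [e] at h ⊢
      exact hz _ _ h
    have key := add_mem h1 hcl hneg hrefl h0 (hperp x) (hperp y) (hmem x hx) (hmem y hy)
    have e : s • a + t • (x + y) = (s + t * ⟪a, x⟫ + t * ⟪a, y⟫) • a +
        t • ((x - ⟪a, x⟫ • a) + (y - ⟪a, y⟫ • a)) := by module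
    rw [e] at hst ⊢
    exact key _ _ hst

/-- (L0) + (L3): an infinite closed system of unit normals, closed under its own reflections and
with no invariant subspace, is the whole sphere -/
theorem sphere_of_infinite [FiniteDimensional ℝ V] {Φ : Set V} (h1 : ∀ a ∈ Φ, ‖a‖ = 1)
    (hcl : IsClosed Φ) (hneg : ∀ a ∈ Φ, -a ∈ Φ)
    (hrefl : ∀ a ∈ Φ, ∀ b ∈ Φ, b - (2 * ⟪a, b⟫) • a ∈ Φ) (hinf : Φ.Infinite)
    (hirr : ∀ p : Submodule ℝ V, (∀ a ∈ Φ, ∀ x ∈ p, x - (2 * ⟪a, x⟫) • a ∈ p) → p = ⊥ ∨ p = ⊤) :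
    Φ = Metric.sphere 0 1 := by
  -- accumulation
  obtain ⟨a, -, hacc⟩ := hinf.exists_accPt_of_subset_isCompact
    (isCompact_sphere (0 : V) 1) (fun x hx => by simpa using h1 x hx)
  have hcla : a ∈ closure (Φ \ {a}) := by
    rw [accPt_iff_clusterPt] at hacc
    rw [mem_closure_iff_clusterPt]
    convert hacc using 1
    rw [Filter.inf_principal, Set.sdiff_eq, Set.inter_comm]
  have h0 : a ∈ Φ := hcl.closure_subset_iff.2 Set.sdiff_subset hcla
  obtain ⟨b, hb, hblim⟩ := mem_closure_iff_seq_limit.1 hcla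
  have hpos : ∀ n, 0 < ‖b n - a‖ := fun n =>
    norm_pos_iff.2 (sub_ne_zero.2 (fun h => (hb n).2 h))
  obtain ⟨c, hc, φ, hφ, hlim⟩ := (isCompact_sphere (0 : V) 1).tendsto_subseq
    (x := fun n => (‖b n - a‖)⁻¹ • (b n - a)) (fun n => by
      rw [mem_sphere_zero_iff_norm, norm_smul, norm_inv, norm_norm,
        inv_mul_cancel₀ (hpos n).ne'])
  have hc1 : ‖c‖ = 1 := by simpa using hc
  have hc0 : c ≠ 0 := by
    intro h; rw [h, norm_zero] at hc1; exact zero_ne_one hc1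
  have hε0 : Tendsto (fun n => ‖b (φ n) - a‖) atTop (𝓝 0) := by
    have h2 := ((hblim.comp hφ.tendsto_atTop).sub_const a).norm
    simpa using h2
  have hL1 := unit_of_limit h1 hcl hneg hrefl hc0 h0 (b := fun n => b (φ n))
    (fun n => (hb _).1) (fun n => hpos _) hε0 hlim
  have hca : ⟪a, c⟫ = 0 := hL1.1
  have hcU : c ∈ uSub h1 hcl hneg hrefl h0 := hL1.2
  -- general facts
  have hself : ∀ {e : V} (he : e ∈ Φ), e ∈ uSub h1 hcl hneg hrefl he := by
    intro e he s t hst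
    rw [← add_smul] at hst ⊢
    exact unit_smul_mem h1 hneg he hst
  have hunit : ∀ {e : V} (he : e ∈ Φ) {x : V}, x ∈ uSub h1 hcl hneg hrefl he → ‖x‖ = 1 → x ∈ Φ := by
    intro e he x hx hx1
    have := hx 0 1 (by simpa using hx1)
    simpa using this
  have hle : ∀ {e f : V} (he : e ∈ Φ) (hf : f ∈ Φ), f ∈ uSub h1 hcl hneg hrefl he →
      uSub h1 hcl hneg hrefl he ≤ uSub h1 hcl hneg hrefl hf := by
    intro e f he hf hfe x hx s t hst
    exact hunit he (Submodule.add_mem _ (Submodule.smul_mem _ s hfe) (Submodule.smul_mem _ t hx)) hst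
  have heq : ∀ {e f : V} (he : e ∈ Φ) (hf : f ∈ Φ), f ∈ uSub h1 hcl hneg hrefl he →
      uSub h1 hcl hneg hrefl he = uSub h1 hcl hneg hrefl hf := by
    intro e f he hf hfe
    have h2 := hle he hf hfe
    exact le_antisymm h2 (hle hf he (h2 (hself he)))
  have hreflU : ∀ {e d : V} (he : e ∈ Φ) (hd : d ∈ Φ) {x : V},
      x ∈ uSub h1 hcl hneg hrefl he →
      x - (2 * ⟪d, x⟫) • d ∈ uSub h1 hcl hneg hrefl (hrefl d hd e he) := by
    intro e d he hd x hx s t hst
    have hdd : ⟪d, d⟫ = (1 : ℝ) := by rw [real_inner_self_eq_norm_sq, h1 d hd]; norm_num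
    have e1 : s • (e - (2 * ⟪d, e⟫) • d) + t • (x - (2 * ⟪d, x⟫) • d)
        = (s • e + t • x) - (2 * ⟪d, s • e + t • x⟫) • d := by
      rw [inner_add_right, real_inner_smul_right, real_inner_smul_right]
      module
    rw [e1] at hst ⊢
    refine hrefl d hd _ (hx s t ?_)
    have h3 : ‖(s • e + t • x) - (2 * ⟪d, s • e + t • x⟫) • d‖ ^ 2 = ‖s • e + t • x‖ ^ 2 := by
      rw [← real_inner_self_eq_norm_sq, ← real_inner_self_eq_norm_sq]
      simp only [inner_sub_left, inner_sub_right, real_inner_smul_left, real_inner_smul_right, hdd]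
      rw [real_inner_comm d (s • e + t • x)]
      ring
    rw [hst] at h3
    have h4 : ‖s • e + t • x‖ ^ 2 = 1 ^ 2 := by rw [← h3]
    exact (sq_eq_sq₀ (norm_nonneg _) zero_le_one).1 h4
  have haa : ⟪a, a⟫ = (1 : ℝ) := by rw [real_inner_self_eq_norm_sq, h1 a h0]; norm_num
  have hcc : ⟪c, c⟫ = (1 : ℝ) := by rw [real_inner_self_eq_norm_sq, hc1]; norm_num
  have hca' : ⟪c, a⟫ = (0 : ℝ) := by rw [real_inner_comm]; exact hca
  have hinv : ∀ d ∈ Φ, ∀ x ∈ uSub h1 hcl hneg hrefl h0,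
      x - (2 * ⟪d, x⟫) • d ∈ uSub h1 hcl hneg hrefl h0 := by
    intro d hd x hx
    -- a unit vector of U orthogonal to d
    obtain ⟨e, heU, he1, hde⟩ : ∃ e ∈ uSub h1 hcl hneg hrefl h0, ‖e‖ = 1 ∧ ⟪d, e⟫ = (0 : ℝ) := by
      by_cases h2 : ⟪d, c⟫ • a - ⟪d, a⟫ • c = 0
      · have h3 : ⟪d, a⟫ = (0 : ℝ) := by
          have := congrArg (fun z => ⟪c, z⟫) h2
          simp only [inner_sub_right, real_inner_smul_right, hca', hcc, inner_zero_right] at this
          linarith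
        exact ⟨a, hself h0, h1 a h0, h3⟩
      · have hn : ‖⟪d, c⟫ • a - ⟪d, a⟫ • c‖ ≠ 0 := norm_ne_zero_iff.2 h2
        refine ⟨‖⟪d, c⟫ • a - ⟪d, a⟫ • c‖⁻¹ • (⟪d, c⟫ • a - ⟪d, a⟫ • c), ?_, ?_, ?_⟩
        · exact Submodule.smul_mem _ _ (Submodule.sub_mem _ (Submodule.smul_mem _ _ (hself h0))
            (Submodule.smul_mem _ _ hcU))
        · rw [norm_smul, norm_inv, norm_norm, inv_mul_cancel₀ hn]
        · rw [real_inner_smul_right, inner_sub_right, real_inner_smul_right, real_inner_smul_right]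
          ring
    have he : e ∈ Φ := hunit h0 heU he1
    have hUe := heq h0 he heU
    rw [hUe] at hx ⊢
    have h5 := hreflU he hd hx
    have h6 : e - (2 * ⟪d, e⟫) • d = e := by rw [hde]; simp
    have h7 : uSub h1 hcl hneg hrefl (hrefl d hd e he) = uSub h1 hcl hneg hrefl he := by
      congr 1
    rwa [h7] at h5
  rcases hirr _ hinv with h | h
  · exfalso
    have : a ∈ (⊥ : Submodule ℝ V) := by rw [← h]; exact hself h0
    rw [Submodule.mem_bot] at this
    have h8 := h1 a h0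
    rw [this, norm_zero] at h8
    exact zero_ne_one h8
  · ext x
    constructor
    · intro hx
      simpa using h1 x hx
    · intro hx
      have hx1 : ‖x‖ = 1 := by simpa using hx
      exact hunit h0 (by rw [h]; exact Submodule.mem_top) hx1

end Pool.Agent.Lib.MP_5e7226_co.V4
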