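import Pool.Agent.Lib.MP_5e7226_co.IN.Defs

set_option autoImplicit false

/-! The reflections among the symmetries. -/

namespace Pool.Agent.Lib.MP_5e7226_co.IN

open scoped InnerProductSpace

variable {d : ℕ} {T : EuclideanSpace ℝ (Fin d) ≃ₗ[ℝ] EuclideanSpace ℝ (Fin d)}
  {K : Set (EuclideanSpace ℝ (Fin d))} {o : EuclideanSpace ℝ (Fin d)}

theorem inner_of_norm {g : EuclideanSpace ℝ (Fin d) ≃ₗ[ℝ] EuclideanSpace ℝ (Fin d)}
    (hgT : ∀ x, ‖T (g x)‖ = ‖T x‖) (x y : EuclideanSpace ℝ (Fin d)) : ⟪T (g x), T (g y)⟫_ℝ = ⟪T x, T y⟫_ℝ := by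
  have h1 := hgT (x + y)
  have h2 := hgT x
  have h3 := hgT y
  rw [map_add, map_add, map_add] at h1
  have h4 := norm_add_sq_real (T (g x)) (T (g y))
  have h5 := norm_add_sq_real (T x) (T y)
  rw [h1, h2, h3] at h4
  linarith

theorem exists_mir {g : EuclideanSpace ℝ (Fin d) ≃ₗ[ℝ] EuclideanSpace ℝ (Fin d)} (hg : CL.IsReflection g)
    (hgK : Sym K o g) (hgT : ∀ x, ‖T (g x)‖ = ‖T x‖) :
    ∃ a ∈ mir (body T K o), ∀ x, T (g x) = T x - (2 * ⟪a, T x⟫_ℝ) • a := by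
  obtain ⟨a, φ, ha, hgx⟩ := hg
  have ha0 : a ≠ 0 := by
    rintro rfl
    rw [map_zero] at ha
    norm_num at ha
  have hb0 : T a ≠ 0 := by simpa using ha0
  have hn : 0 < ‖T a‖ := norm_pos_iff.2 hb0
  have h1 : ∀ x, φ x * (‖T a‖ * ‖T a‖) = 2 * ⟪T a, T x⟫_ℝ := by
    intro x
    have h2 := inner_of_norm hgT a x
    rw [hgx, hgx, ha] at h2
    have h3 : T (a - (2 : ℝ) • a) = -T a := by
      rw [map_sub, map_smul, two_smul]
      abel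
    rw [h3, map_sub, map_smul, inner_neg_left, inner_sub_right, inner_smul_right, real_inner_self_eq_norm_mul_norm] at h2
    linarith
  have hx : ∀ x, T (g x) = T x - (2 * ⟪‖T a‖⁻¹ • T a, T x⟫_ℝ) • ‖T a‖⁻¹ • T a := by
    intro x
    rw [hgx, map_sub, map_smul, smul_smul]
    congr 2
    rw [real_inner_smul_left]
    have h2 := h1 x
    field_simp
    linarith
  refine ⟨‖T a‖⁻¹ • T a, ⟨?_, ?_⟩, hx⟩
  · rw [norm_smul, norm_inv, norm_norm, inv_mul_cancel₀ hn.ne']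
  · intro x hxK
    have h2 := (hgK (T.symm x)).1 hxK
    have h3 := hx (T.symm x)
    rw [LinearEquiv.apply_symm_apply] at h3
    show o + T.symm _ ∈ K
    rw [← h3, LinearEquiv.symm_apply_apply]
    exact h2

theorem exists_refl {a : EuclideanSpace ℝ (Fin d)} (ha : a ∈ mir (body T K o)) :
    ∃ g : EuclideanSpace ℝ (Fin d) ≃ₗ[ℝ] EuclideanSpace ℝ (Fin d), CL.IsReflection g ∧ Sym K o g ∧
      ∀ x, T (g x) = T x - (2 * ⟪a, T x⟫_ℝ) • a := by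
  have haa : ⟪a, a⟫_ℝ = 1 := by rw [real_inner_self_eq_norm_sq, ha.1, one_pow]
  obtain ⟨φ, hφ⟩ : ∃ φ : EuclideanSpace ℝ (Fin d) →ₗ[ℝ] ℝ, ∀ x, φ x = 2 * ⟪a, T x⟫_ℝ :=
    ⟨(2 : ℝ) • ((innerₗ (EuclideanSpace ℝ (Fin d)) a) ∘ₗ
      (T : EuclideanSpace ℝ (Fin d) →ₗ[ℝ] EuclideanSpace ℝ (Fin d))), fun x => rfl⟩
  obtain ⟨L, hL⟩ : ∃ L : EuclideanSpace ℝ (Fin d) →ₗ[ℝ] EuclideanSpace ℝ (Fin d), ∀ x, L x = x - φ x • T.symm a :=
    ⟨LinearMap.id - φ.smulRight (T.symm a), fun x => rfl⟩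
  have hLL : ∀ x, L (L x) = x := by
    intro x
    have h1 : φ (T.symm a) = 2 := by rw [hφ, LinearEquiv.apply_symm_apply, haa, mul_one]
    rw [hL, hL, map_sub, map_smul, h1, smul_eq_mul]
    module
  obtain ⟨g, hg⟩ : ∃ g : EuclideanSpace ℝ (Fin d) ≃ₗ[ℝ] EuclideanSpace ℝ (Fin d), ∀ x, g x = L x :=
    ⟨LinearEquiv.ofInvolutive L hLL, fun x => rfl⟩
  have hx : ∀ x, T (g x) = T x - (2 * ⟪a, T x⟫_ℝ) • a := by
    intro x
    rw [hg, hL, map_sub, map_smul, LinearEquiv.apply_symm_apply, hφ]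
  have h1 : ∀ x, o + x ∈ K → o + g x ∈ K := by
    intro x hxK
    have h2 : T x ∈ body T K o := by
      show o + T.symm (T x) ∈ K
      rwa [LinearEquiv.symm_apply_apply]
    have h3 := ha.2 _ h2
    rw [← hx] at h3
    have h4 : o + T.symm (T (g x)) ∈ K := h3
    rwa [LinearEquiv.symm_apply_apply] at h4
  refine ⟨g, ⟨T.symm a, φ, ?_, fun x => by rw [hg, hL]⟩, fun x => ⟨h1 x, fun h => ?_⟩, hx⟩
  · rw [hφ, LinearEquiv.apply_symm_apply, haa, mul_one]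
  · have h2 := h1 _ h
    rwa [hg (g x), hg x, hLL] at h2

end Pool.Agent.Lib.MP_5e7226_co.IN
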