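import Pool.Agent.Lib.MP_5e7226_co.IN.Mirs
import Pool.Agent.Lib.MP_5e7226_co.IN.Cov
import Pool.Agent.Lib.MP_5e7226_co.IN.Ball
import Pool.Agent.Lib.MP_5e7226_co.IN.Fing
import Pool.Agent.Lib.MP_5e7226_co.IN.Refl

set_option autoImplicit false

/-! The bodies whose mirrors are irreducible. -/

namespace Pool.Agent.Lib.MP_5e7226_co.IN

open scoped InnerProductSpace

variable {d : ℕ}

theorem isClosed_body (T : EuclideanSpace ℝ (Fin d) ≃ₗ[ℝ] EuclideanSpace ℝ (Fin d))
    {K : Set (EuclideanSpace ℝ (Fin d))} (hK : IsClosed K) (o : EuclideanSpace ℝ (Fin d)) :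
    IsClosed (body T K o) := by
  have h1 : Continuous fun x => T.symm x :=
    LinearMap.continuous_of_finiteDimensional (T.symm : EuclideanSpace ℝ (Fin d) →ₗ[ℝ] EuclideanSpace ℝ (Fin d))
  exact hK.preimage (continuous_const.add h1)

theorem good_of_mirrors (hd : 3 ≤ d) {K : Set (EuclideanSpace ℝ (Fin d))} {o : EuclideanSpace ℝ (Fin d)}
    (hconv : Convex ℝ K) (hcomp : IsCompact K) (hint : (interior K).Nonempty)
    (hirr : ∀ p : Submodule ℝ (EuclideanSpace ℝ (Fin d)),
      (∀ g, CL.IsReflection g → Sym K o g → ∀ x ∈ p, g x ∈ p) → p = ⊥ ∨ p = ⊤) : RG.Good K o := by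
  obtain ⟨T, hT⟩ := cov_exists (o := o) hcomp hint
  rcases (mir (body T K o)).finite_or_infinite with hf | hi
  · exact fing hd T hT hconv hcomp hint hf hirr
  · refine ball hd T hconv hcomp hint (mir_sphere (isClosed_body T hcomp.isClosed o) hi fun p hp => ?_)
    have h1 := hirr (p.comap (T : EuclideanSpace ℝ (Fin d) →ₗ[ℝ] EuclideanSpace ℝ (Fin d))) (fun g hg hgK x hx => by
      obtain ⟨a, ha, hga⟩ := exists_mir hg hgK (hT g hgK)
      rw [Submodule.mem_comap]
      have h2 := hp a ha (T x) hx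
      rw [← hga x] at h2
      exact h2)
    rcases h1 with h1 | h1
    · left
      rw [eq_bot_iff]
      intro x hx
      have h2 : T.symm x ∈ p.comap (T : EuclideanSpace ℝ (Fin d) →ₗ[ℝ] EuclideanSpace ℝ (Fin d)) := by
        rw [Submodule.mem_comap]
        simpa using hx
      rw [h1, Submodule.mem_bot] at h2
      rw [Submodule.mem_bot]
      simpa using h2
    · right
      rw [eq_top_iff]
      intro x _
      have h2 : T.symm x ∈ p.comap (T : EuclideanSpace ℝ (Fin d) →ₗ[ℝ] EuclideanSpace ℝ (Fin d)) := by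
        rw [h1]
        exact Submodule.mem_top
      rw [Submodule.mem_comap] at h2
      simpa using h2

end Pool.Agent.Lib.MP_5e7226_co.IN
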