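import Pool.Agent.Lib.MP_5e7226_co.IN.Defs
import Pool.Agent.Lib.MP_5e7226_co.IN.Inf

set_option autoImplicit false

/-! Infinitely many irreducible mirrors: all. -/

namespace Pool.Agent.Lib.MP_5e7226_co.IN

open scoped InnerProductSpace

variable {d : ℕ}

theorem mir_closed {C : Set (EuclideanSpace ℝ (Fin d))} (hC : IsClosed C) : IsClosed (mir C) := by
  have h1 : mir C = {a | ‖a‖ = 1} ∩ ⋂ x ∈ C, {a | x - (2 * ⟪a, x⟫_ℝ) • a ∈ C} := by
    ext a
    simp [mir]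
  rw [h1]
  refine (isClosed_eq continuous_norm continuous_const).inter (isClosed_biInter fun x _ => ?_)
  have h2 : Continuous fun a : EuclideanSpace ℝ (Fin d) => x - (2 * ⟪a, x⟫_ℝ) • a := by fun_prop
  exact hC.preimage h2

theorem mir_neg {C : Set (EuclideanSpace ℝ (Fin d))} {a : EuclideanSpace ℝ (Fin d)} (ha : a ∈ mir C) : -a ∈ mir C := by
  refine ⟨by rw [norm_neg]; exact ha.1, fun x hx => ?_⟩
  have h1 := ha.2 x hx
  rwa [show x - (2 * ⟪-a, x⟫_ℝ) • -a = x - (2 * ⟪a, x⟫_ℝ) • a by rw [inner_neg_left]; module]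

theorem mir_refl {C : Set (EuclideanSpace ℝ (Fin d))} {a b : EuclideanSpace ℝ (Fin d)} (ha : a ∈ mir C)
    (hb : b ∈ mir C) : b - (2 * ⟪a, b⟫_ℝ) • a ∈ mir C := by
  have h1 : ⟪a, a⟫_ℝ = 1 := by rw [real_inner_self_eq_norm_sq, ha.1, one_pow]
  have h2 : ⟪b, b⟫_ℝ = 1 := by rw [real_inner_self_eq_norm_sq, hb.1, one_pow]
  constructor
  · have h3 : ⟪b - (2 * ⟪a, b⟫_ℝ) • a, b - (2 * ⟪a, b⟫_ℝ) • a⟫_ℝ = 1 := by
      rw [inner_sub_right, inner_sub_left, inner_sub_left, inner_smul_right, inner_smul_right, inner_smul_left,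
        inner_smul_left, h1, h2, real_inner_comm a b]
      simp
      ring
    rw [real_inner_self_eq_norm_sq] at h3
    nlinarith [norm_nonneg (b - (2 * ⟪a, b⟫_ℝ) • a)]
  · intro x hx
    have h3 := ha.2 _ (hb.2 _ (ha.2 x hx))
    convert h3 using 1
    simp only [inner_sub_right, inner_smul_right, inner_sub_left, inner_smul_left, h1, real_inner_comm a b,
      conj_trivial]
    module

theorem mir_sphere {C : Set (EuclideanSpace ℝ (Fin d))} (hC : IsClosed C) (hinf : (mir C).Infinite)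
    (hirr : ∀ p : Submodule ℝ (EuclideanSpace ℝ (Fin d)),
      (∀ a ∈ mir C, ∀ x ∈ p, x - (2 * ⟪a, x⟫_ℝ) • a ∈ p) → p = ⊥ ∨ p = ⊤) :
    ∀ a, ‖a‖ = 1 → a ∈ mir C := by
  intro a ha
  rw [V4.sphere_of_infinite (fun a ha => ha.1) (mir_closed hC) (fun a ha => mir_neg ha)
    (fun a ha b hb => mir_refl ha hb) hinf hirr]
  simpa using ha

end Pool.Agent.Lib.MP_5e7226_co.IN
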