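import Pool.Agent.Lib.MP_5e7226_co.IN.Three
import Pool.Agent.Lib.MP_5e7226_co.IN.Mirr
import Pool.Agent.Lib.MP_5e7226_co.TG.Tet

set_option autoImplicit false

/-! The bodies in `E^3` with an irreducible symmetry group have the rotations of a tetrahedron. -/

namespace Pool.Agent.Lib.MP_5e7226_co.IN

/-- The symmetries of `K` about `o`. -/
def symGroup (K : Set (EuclideanSpace ℝ (Fin 3))) (o : EuclideanSpace ℝ (Fin 3)) :
    Subgroup (EuclideanSpace ℝ (Fin 3) ≃ₗ[ℝ] EuclideanSpace ℝ (Fin 3)) where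
  carrier := {g | Sym K o g}
  mul_mem' := by
    intro g h hg hh x
    exact (hh x).trans (hg (h x))
  one_mem' := fun x => Iff.rfl
  inv_mem' := by
    intro g hg x
    have h1 := hg (g⁻¹ x)
    have h2 : g (g⁻¹ x) = x := LinearEquiv.apply_symm_apply g x
    rw [h2] at h1
    exact h1.symm

/-- The isometry `T g T⁻¹`. -/
theorem exists_isom {T : EuclideanSpace ℝ (Fin 3) ≃ₗ[ℝ] EuclideanSpace ℝ (Fin 3)}
    {g : EuclideanSpace ℝ (Fin 3) ≃ₗ[ℝ] EuclideanSpace ℝ (Fin 3)} (h : ∀ x, ‖T (g x)‖ = ‖T x‖) :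
    ∃ f : EuclideanSpace ℝ (Fin 3) ≃ₗ[ℝ] EuclideanSpace ℝ (Fin 3), (∀ x, f x = T (g (T.symm x))) ∧
      ∀ x, ‖f x‖ = ‖x‖ := by
  refine ⟨(T.symm.trans g).trans T, fun x => rfl, fun x => ?_⟩
  have h1 := h (T.symm x)
  simpa using h1

theorem exists_tetK {K : Set (EuclideanSpace ℝ (Fin 3))} {o : EuclideanSpace ℝ (Fin 3)}
    (hcomp : IsCompact K) (hint : (interior K).Nonempty)
    (hirr : ∀ p : Submodule ℝ (EuclideanSpace ℝ (Fin 3)), (∀ g, Sym K o g → ∀ x ∈ p, g x ∈ p) → p = ⊥ ∨ p = ⊤) :
    ∃ b, TetK K o b := by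
  rcases {g | Sym K o g}.finite_or_infinite with hf | hi
  · have hfin : Finite (symGroup K o) := hf
    obtain ⟨e, ⟨g, hg, hg0, hg1, hg2⟩, -, ⟨t, ht, ht0, ht1, ht2⟩⟩ := TG.tetra (W := symGroup K o) hirr
    refine ⟨e, e.linearIndependent, fun x y z h => ?_, fun x y z h => ?_⟩
    · have h1 := (hg _).1 h
      rw [map_add, map_add, map_smul, map_smul, map_smul, hg0, hg1, hg2] at h1
      convert h1 using 2
      rw [smul_neg, smul_neg]
      abel
    · have h1 := (ht _).1 h
      rw [map_add, map_add, map_smul, map_smul, map_smul, ht0, ht1, ht2] at h1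
      exact h1
  · obtain ⟨T, hT⟩ := cov_exists (o := o) hcomp hint
    have hC : IsCompact (body T K o) := by
      have h1 : body T K o = (fun x => T (x - o)) '' K := by
        ext x
        constructor
        · intro hx
          exact ⟨o + T.symm x, hx, by simp⟩
        · rintro ⟨y, hy, rfl⟩
          simpa [body] using hy
      rw [h1]
      have h2 : Continuous fun x => T x :=
        LinearMap.continuous_of_finiteDimensional (T : EuclideanSpace ℝ (Fin 3) →ₗ[ℝ] EuclideanSpace ℝ (Fin 3))
      exact hcomp.image (h2.comp (continuous_id.sub continuous_const))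
    refine ⟨_, ball3 T fun a ha => ⟨ha, three hC.isClosed ?_ (fun p hp => ?_) a ha⟩⟩
    · choose! f hf using fun (g : EuclideanSpace ℝ (Fin 3) ≃ₗ[ℝ] EuclideanSpace ℝ (Fin 3)) (hg : Sym K o g) =>
        exists_isom (hT g hg)
      refine (hi.image (f := f) ?_).mono ?_
      · intro g hg g' hg' hgg
        ext1 x
        have h1 := (hf g hg).1 (T x)
        have h2 := (hf g' hg').1 (T x)
        rw [hgg, h2] at h1
        simpa using h1.symm
      · rintro _ ⟨g, hg, rfl⟩
        refine ⟨(hf g hg).2, fun x => ?_⟩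
        rw [(hf g hg).1]
        have h1 := hg (T.symm x)
        show o + T.symm x ∈ K ↔ o + T.symm (T (g (T.symm x))) ∈ K
        rw [LinearEquiv.symm_apply_apply]
        exact h1
    · have h1 := hirr (p.comap (T : EuclideanSpace ℝ (Fin 3) →ₗ[ℝ] EuclideanSpace ℝ (Fin 3))) (fun g hgK x hx => by
        obtain ⟨f, hf, hfn⟩ := exists_isom (hT g hgK)
        rw [Submodule.mem_comap]
        have h2 := hp f hfn (fun x => by
          rw [hf]
          have h1 := hgK (T.symm x)
          show o + T.symm x ∈ K ↔ o + T.symm (T (g (T.symm x))) ∈ K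
          rw [LinearEquiv.symm_apply_apply]
          exact h1) (T x) hx
        rw [hf, LinearEquiv.symm_apply_apply] at h2
        exact h2)
      rcases h1 with h1 | h1
      · left
        rw [eq_bot_iff]
        intro x hx
        have h2 : T.symm x ∈ p.comap (T : EuclideanSpace ℝ (Fin 3) →ₗ[ℝ] EuclideanSpace ℝ (Fin 3)) := by
          rw [Submodule.mem_comap]
          simpa using hx
        rw [h1, Submodule.mem_bot] at h2
        rw [Submodule.mem_bot]
        simpa using h2
      · right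
        rw [eq_top_iff]
        intro x _
        have h2 : T.symm x ∈ p.comap (T : EuclideanSpace ℝ (Fin 3) →ₗ[ℝ] EuclideanSpace ℝ (Fin 3)) := by
          rw [h1]
          exact Submodule.mem_top
        rw [Submodule.mem_comap] at h2
        simpa using h2

end Pool.Agent.Lib.MP_5e7226_co.IN
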