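import Pool.Agent.Lib.MP_5e7226_co.IN.Res
import Pool.Agent.Lib.MP_5e7226_co.IN.Tri
import Pool.Agent.Lib.MP_5e7226_co.TR.Main

set_option autoImplicit false

/-! The theorem for the irreducible symmetries. -/

namespace Pool.Agent.Lib.MP_5e7226_co.IN

open scoped InnerProductSpace

variable {d : ℕ}

/-- The bodies with irreducible symmetries (for `d = 3`) or with irreducible mirrors. -/
theorem good_of_irreducible
    (hd : 3 ≤ d) {K : Set (EuclideanSpace ℝ (Fin d))} {o : EuclideanSpace ℝ (Fin d)}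
    (hconv : Convex ℝ K) (hcomp : IsCompact K) (hint : (interior K).Nonempty)
    (hirr : ∀ p : Submodule ℝ (EuclideanSpace ℝ (Fin d)),
      (∀ g : EuclideanSpace ℝ (Fin d) → EuclideanSpace ℝ (Fin d),
        (d = 3 ∨ ∃ a u : EuclideanSpace ℝ (Fin d), ⟪u, a⟫_ℝ = 2 ∧ ∀ x, g x = x - ⟪u, x⟫_ℝ • a) →
        (IsLinearMap ℝ g ∧ ∀ x, o + x ∈ K ↔ o + g x ∈ K) → ∀ x ∈ p, g x ∈ p) → p = ⊥ ∨ p = ⊤) : RG.Good K o := by
  rcases Nat.lt_or_ge 3 d with h3 | h3
  · refine good_of_mirrors hd hconv hcomp hint fun p hp => hirr p fun g hg hgK x hx => ?_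
    obtain ⟨g', hg'⟩ := exists_equiv hcomp hint hgK.1 hgK.2
    rw [← hg' x]
    refine hp g' (isReflection_of_fun hg' (hg.resolve_left (by omega))) (fun x => ?_) x hx
    rw [hg']
    exact hgK.2 x
  · obtain rfl : d = 3 := by omega
    obtain ⟨b, hb⟩ := exists_tetK (o := o) hcomp hint (fun p hp => hirr p fun g _ hgK x hx => by
      obtain ⟨g', hg'⟩ := exists_equiv hcomp hint hgK.1 hgK.2
      rw [← hg' x]
      refine hp g' (fun x => ?_) x hx
      rw [hg']
      exact hgK.2 x)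
    exact TR.good (b := b) hconv hcomp hint hb

end Pool.Agent.Lib.MP_5e7226_co.IN
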