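import Pool.Agent.Lib.MP_5e7226_co.IN.Inf
import Pool.Agent.Lib.MP_5e7226_co.IN.Ax2

set_option autoImplicit false

/-! Three dimensions: infinitely many symmetries which act irreducibly give all mirrors. -/

namespace Pool.Agent.Lib.MP_5e7226_co.IN

open Matrix
open scoped RealInnerProductSpace

section Plane

variable {V : Type*} [NormedAddCommGroup V] [InnerProductSpace ℝ V]

/-- The unit vectors of a plane are infinitely many. -/
theorem unit_infinite {P : Submodule ℝ V} {a b : V} (haP : a ∈ P) (hbP : b ∈ P) (ha : ‖a‖ = 1) (hb : ‖b‖ = 1)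
    (hab : ⟪a, b⟫ = 0) {Φ : Set V} (hPΦ : ∀ x ∈ P, ‖x‖ = 1 → x ∈ Φ) : Φ.Infinite := by
  have haa : ⟪a, a⟫ = (1 : ℝ) := by rw [real_inner_self_eq_norm_sq, ha]; norm_num
  have hbb : ⟪b, b⟫ = (1 : ℝ) := by rw [real_inner_self_eq_norm_sq, hb]; norm_num
  refine Set.infinite_of_injOn_mapsTo (f := fun t : ℝ => Real.cos t • a + Real.sin t • b)
    (s := Set.Icc 0 Real.pi) ?_ ?_ (Set.Icc_infinite Real.pi_pos)
  · intro s hs t ht hst
    have h1 := congrArg (fun x => ⟪a, x⟫) hst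
    simp only [inner_add_right, real_inner_smul_right, haa, hab, mul_zero, add_zero, mul_one] at h1
    exact Real.injOn_cos hs ht h1
  · intro t _
    refine hPΦ _ (P.add_mem (P.smul_mem _ haP) (P.smul_mem _ hbP)) ?_
    have h1 : ‖Real.cos t • a + Real.sin t • b‖ ^ 2 = 1 := by
      rw [← real_inner_self_eq_norm_sq]
      simp only [inner_add_left, inner_add_right, real_inner_smul_left, real_inner_smul_right, haa, hbb, hab,
        real_inner_comm a b]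
      nlinarith [Real.sin_sq_add_cos_sq t]
    have h2 := norm_nonneg (Real.cos t • a + Real.sin t • b)
    nlinarith

/-- A root of an invariant subspace `q` is in `q` or orthogonal to `q`. -/
theorem mem_or_perp {a : V} {q : Submodule ℝ V} (hq : ∀ x ∈ q, x - (2 * ⟪a, x⟫) • a ∈ q) :
    a ∈ q ∨ ∀ x ∈ q, ⟪a, x⟫ = (0 : ℝ) := by
  by_cases h : ∀ x ∈ q, ⟪a, x⟫ = (0 : ℝ)
  · exact Or.inr h
  · push Not at h
    obtain ⟨x, hx, hax⟩ := h
    left
    have h1 : (2 * ⟪a, x⟫) • a ∈ q := by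
      have h2 := q.sub_mem hx (hq x hx)
      rwa [sub_sub_cancel] at h2
    have h3 := q.smul_mem (2 * ⟪a, x⟫)⁻¹ h1
    rwa [smul_smul, inv_mul_cancel₀ (mul_ne_zero two_ne_zero hax), one_smul] at h3

theorem plane_mem {P q : Submodule ℝ V} (h : ∀ a ∈ P, ‖a‖ = 1 → a ∈ q ∨ ∀ x ∈ q, ⟪a, x⟫ = (0 : ℝ)) :
    P ≤ q ∨ ∀ a ∈ P, ∀ x ∈ q, ⟪a, x⟫ = (0 : ℝ) := by
  have h' : ∀ a ∈ P, a ∈ q ∨ ∀ x ∈ q, ⟪a, x⟫ = (0 : ℝ) := by
    intro a ha
    by_cases ha0 : a = 0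
    · left
      rw [ha0]
      exact q.zero_mem
    · have hn : ‖a‖ ≠ 0 := norm_ne_zero_iff.2 ha0
      rcases h (‖a‖⁻¹ • a) (P.smul_mem _ ha) (by rw [norm_smul, norm_inv, norm_norm, inv_mul_cancel₀ hn]) with h1 | h1
      · left
        have h2 := q.smul_mem ‖a‖ h1
        rwa [smul_smul, mul_inv_cancel₀ hn, one_smul] at h2
      · right
        intro x hx
        have h2 := h1 x hx
        rw [real_inner_smul_left] at h2
        exact (mul_eq_zero.1 h2).resolve_left (inv_ne_zero hn)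
  by_cases hP : P ≤ q
  · exact Or.inl hP
  · right
    obtain ⟨a, haP, haq⟩ := Set.not_subset.1 hP
    have ha0 := (h' a haP).resolve_left haq
    intro b hb x hx
    rcases h' b hb with h1 | h1
    · rcases h' (a + b) (P.add_mem haP hb) with h2 | h2
      · exact absurd (by simpa using q.sub_mem h2 h1) haq
      · have h3 := h2 x hx
        rw [inner_add_left, ha0 x hx, zero_add] at h3
        exact h3
    · exact h1 x hx

theorem sphere_of_plane [FiniteDimensional ℝ V] (h3 : Module.finrank ℝ V = 3) {Φ : Set V} (h1 : ∀ a ∈ Φ, ‖a‖ = 1)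
    (hcl : IsClosed Φ) (hneg : ∀ a ∈ Φ, -a ∈ Φ) (hrefl : ∀ a ∈ Φ, ∀ b ∈ Φ, b - (2 * ⟪a, b⟫) • a ∈ Φ)
    {P : Submodule ℝ V} (hP : Module.finrank ℝ P = 2) (hPΦ : ∀ x ∈ P, ‖x‖ = 1 → x ∈ Φ)
    (G : Set (V ≃ₗ[ℝ] V)) (hGn : ∀ g ∈ G, ∀ x, ‖g x‖ = ‖x‖) (hGΦ : ∀ g ∈ G, ∀ a ∈ Φ, g a ∈ Φ)
    (hirr : ∀ q : Submodule ℝ V, (∀ g ∈ G, ∀ x ∈ q, g x ∈ q) → q = ⊥ ∨ q = ⊤) : Φ = Metric.sphere 0 1 := by
  -- another plane
  obtain ⟨g, hgG, x₀, hx₀, hgx₀⟩ : ∃ g ∈ G, ∃ x ∈ P, g x ∉ P := by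
    by_contra hcon
    push Not at hcon
    rcases hirr P hcon with h | h
    · rw [h, finrank_bot] at hP
      norm_num at hP
    · rw [h, finrank_top, h3] at hP
      norm_num at hP
  obtain ⟨Q, hQ⟩ : ∃ Q : Submodule ℝ V, Q = P.map (g : V →ₗ[ℝ] V) := ⟨_, rfl⟩
  have hQf : Module.finrank ℝ Q = 2 := by
    rw [hQ, ← hP]
    exact (g.submoduleMap P).finrank_eq.symm
  have hQΦ : ∀ x ∈ Q, ‖x‖ = 1 → x ∈ Φ := by
    intro x hx hx1
    rw [hQ] at hx
    obtain ⟨y, hy, rfl⟩ := hx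
    refine hGΦ g hgG y (hPΦ y hy ?_)
    rw [← hGn g hgG y]
    exact hx1
  have hsup : P ⊔ Q = ⊤ := by
    refine Submodule.eq_top_of_finrank_eq ?_
    rw [h3]
    refine le_antisymm (h3 ▸ Submodule.finrank_le _) ?_
    have hlt : P < P ⊔ Q := by
      refine lt_of_le_of_ne le_sup_left fun h => hgx₀ ?_
      rw [h]
      exact Submodule.mem_sup_right (by rw [hQ]; exact ⟨x₀, hx₀, rfl⟩)
    have h4 := Submodule.finrank_lt_finrank_of_lt hlt
    omega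
  obtain ⟨w, hwP, hwQ, hw0⟩ : ∃ w ∈ P, w ∈ Q ∧ w ≠ 0 := by
    have h4 := Submodule.finrank_sup_add_finrank_inf_eq P Q
    rw [hsup, finrank_top, h3, hP, hQf] at h4
    have h5 : P ⊓ Q ≠ ⊥ := by
      intro h
      rw [h, finrank_bot] at h4
      norm_num at h4
    obtain ⟨w, hw, hw0⟩ := Submodule.exists_mem_ne_zero_of_ne_bot h5
    exact ⟨w, hw.1, hw.2, hw0⟩
  have hinf : Φ.Infinite := by
    have hnt : Nontrivial P := Module.nontrivial_of_finrank_pos (R := ℝ) (by rw [hP]; norm_num)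
    have e := (stdOrthonormalBasis ℝ P)
    rw [hP] at e
    have h5 := e.orthonormal
    refine unit_infinite (P := P) (a := (e 0 : V)) (b := (e 1 : V)) (e 0).2 (e 1).2 ?_ ?_ ?_ hPΦ
    · exact h5.1 0
    · exact h5.1 1
    · have h6 := h5.2 (show (0 : Fin 2) ≠ 1 by decide)
      exact h6
  refine V4.sphere_of_infinite h1 hcl hneg hrefl hinf fun q hq => ?_
  have hmem : ∀ a ∈ Φ, a ∈ q ∨ ∀ x ∈ q, ⟪a, x⟫ = (0 : ℝ) := fun a ha => mem_or_perp (hq a ha)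
  rcases plane_mem (P := P) (q := q) (fun a ha ha1 => hmem a (hPΦ a ha ha1)) with h | h
  · rcases plane_mem (P := Q) (q := q) (fun a ha ha1 => hmem a (hQΦ a ha ha1)) with h' | h'
    · right
      rw [eq_top_iff, ← hsup]
      exact sup_le h h'
    · exfalso
      exact hw0 (inner_self_eq_zero.1 (h' w hwQ w (h hwP)))
  · rcases plane_mem (P := Q) (q := q) (fun a ha ha1 => hmem a (hQΦ a ha ha1)) with h' | h'
    · exfalso
      exact hw0 (inner_self_eq_zero.1 (h w hwP w (h' hwQ)))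
    · left
      rw [eq_bot_iff]
      intro x hx
      have h6 : x ∈ P ⊔ Q := by rw [hsup]; exact Submodule.mem_top
      obtain ⟨y, hy, z, hz, hyz⟩ := Submodule.mem_sup.1 h6
      have h7 : ⟪y + z, x⟫ = (0 : ℝ) := by
        rw [inner_add_left, h y hy x hx, h' z hz x hx, add_zero]
      rw [hyz] at h7
      rw [Submodule.mem_bot]
      exact inner_self_eq_zero.1 h7

end Plane

section Matrices

/-- The matrix of `g`. -/
noncomputable def mat (g : EuclideanSpace ℝ (Fin 3) ≃ₗ[ℝ] EuclideanSpace ℝ (Fin 3)) : Matrix (Fin 3) (Fin 3) ℝ :=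
  LinearMap.toMatrix' ((WithLp.linearEquiv 2 ℝ (Fin 3 → ℝ)).toLinearMap ∘ₗ g.toLinearMap ∘ₗ
    (WithLp.linearEquiv 2 ℝ (Fin 3 → ℝ)).symm.toLinearMap)

theorem mat_mulVec (g : EuclideanSpace ℝ (Fin 3) ≃ₗ[ℝ] EuclideanSpace ℝ (Fin 3)) (y : Fin 3 → ℝ) :
    mat g *ᵥ y = WithLp.ofLp (g (WithLp.toLp 2 y)) := by
  unfold mat
  rw [LinearMap.toMatrix'_mulVec]
  rfl

theorem mat_injective : Function.Injective mat := by
  intro g g' h
  ext1 x
  have h1 := congrArg (fun A => WithLp.toLp 2 (A *ᵥ WithLp.ofLp x)) h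
  simp only [mat_mulVec] at h1
  exact h1

theorem inner_eq_dot (x y : EuclideanSpace ℝ (Fin 3)) : ⟪x, y⟫ = WithLp.ofLp x ⬝ᵥ WithLp.ofLp y := by
  rw [EuclideanSpace.inner_eq_star_dotProduct, dotProduct_comm]
  rfl

theorem mat_orth {g : EuclideanSpace ℝ (Fin 3) ≃ₗ[ℝ] EuclideanSpace ℝ (Fin 3)} (hg : ∀ x, ‖g x‖ = ‖x‖) :
    (mat g)ᵀ * mat g = 1 := by
  have h1 : ∀ x y, ⟪g x, g y⟫ = (⟪x, y⟫ : ℝ) := fun x y =>
    LinearIsometry.inner_map_map (⟨g.toLinearMap, hg⟩ : EuclideanSpace ℝ (Fin 3) →ₗᵢ[ℝ] EuclideanSpace ℝ (Fin 3)) x y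
  ext i j
  have h2 := h1 (WithLp.toLp 2 (Pi.single i 1)) (WithLp.toLp 2 (Pi.single j 1))
  rw [inner_eq_dot, inner_eq_dot, ← mat_mulVec, ← mat_mulVec, mulVec_single_one, mulVec_single_one] at h2
  rw [mul_apply, one_apply]
  have h3 : (Pi.single i (1 : ℝ) : Fin 3 → ℝ) ⬝ᵥ Pi.single j 1 = if i = j then 1 else 0 := by
    rw [single_one_dotProduct, Pi.single_apply]
  change (mat g).col i ⬝ᵥ (mat g).col j = (Pi.single i (1 : ℝ) : Fin 3 → ℝ) ⬝ᵥ Pi.single j 1 at h2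
  rw [h3] at h2
  rw [← h2]
  rfl

end Matrices

/-- Infinitely many linear isometries preserve `C` and they are irreducible: `C` has all mirrors. -/
theorem three {C : Set (EuclideanSpace ℝ (Fin 3))} (hC : IsClosed C)
    (hinf : {g : EuclideanSpace ℝ (Fin 3) ≃ₗ[ℝ] EuclideanSpace ℝ (Fin 3) |
      (∀ x, ‖g x‖ = ‖x‖) ∧ ∀ x, x ∈ C ↔ g x ∈ C}.Infinite)
    (hirr : ∀ q : Submodule ℝ (EuclideanSpace ℝ (Fin 3)),
      (∀ g : EuclideanSpace ℝ (Fin 3) ≃ₗ[ℝ] EuclideanSpace ℝ (Fin 3), (∀ x, ‖g x‖ = ‖x‖) →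
        (∀ x, x ∈ C ↔ g x ∈ C) → ∀ x ∈ q, g x ∈ q) → q = ⊥ ∨ q = ⊤) :
    ∀ a : EuclideanSpace ℝ (Fin 3), ‖a‖ = 1 → ∀ x ∈ C, x - (2 * ⟪a, x⟫) • a ∈ C := by
  obtain ⟨D, hD⟩ : ∃ D : Set (Fin 3 → ℝ), ∀ y, y ∈ D ↔ WithLp.toLp 2 y ∈ C := ⟨{y | WithLp.toLp 2 y ∈ C}, fun _ => Iff.rfl⟩
  have hDc : IsClosed D := by
    have h1 : D = (WithLp.toLp 2) ⁻¹' C := by
      ext y
      exact hD y
    rw [h1]
    exact hC.preimage (PiLp.continuous_toLp 2 _)
  obtain ⟨p, hp, hmir⟩ := Ax.mirrors_of_infinite hDc (Set.infinite_of_injOn_mapsTo mat_injective.injOn (by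
    rintro g ⟨hg1, hg2⟩
    refine ⟨mat_orth hg1, fun y hy => ?_, fun y hy => ?_⟩
    · rw [hD] at hy ⊢
      rw [mat_mulVec]
      exact (hg2 _).1 hy
    · have h1 : (mat g)ᵀ *ᵥ y = WithLp.ofLp (g.symm (WithLp.toLp 2 y)) := by
        have h2 : mat g *ᵥ WithLp.ofLp (g.symm (WithLp.toLp 2 y)) = y := by
          rw [mat_mulVec, WithLp.toLp_ofLp, LinearEquiv.apply_symm_apply]
        conv_lhs => rw [← h2]
        rw [mulVec_mulVec, mat_orth hg1, one_mulVec]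
      rw [h1, hD, WithLp.toLp_ofLp, hg2, LinearEquiv.apply_symm_apply, ← hD]
      exact hy) hinf)
  obtain ⟨Φ, hΦ⟩ : ∃ Φ : Set (EuclideanSpace ℝ (Fin 3)), ∀ a, a ∈ Φ ↔
      ‖a‖ = 1 ∧ ∀ x ∈ C, x - (2 * ⟪a, x⟫) • a ∈ C := ⟨{a | ‖a‖ = 1 ∧ ∀ x ∈ C, x - (2 * ⟪a, x⟫) • a ∈ C}, fun _ => Iff.rfl⟩
  have h3 : Module.finrank ℝ (EuclideanSpace ℝ (Fin 3)) = 3 := by simp
  have key : Φ = Metric.sphere 0 1 := by
    refine sphere_of_plane h3 (P := (Submodule.span ℝ {(WithLp.toLp 2 p : EuclideanSpace ℝ (Fin 3))})ᗮ)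
      (fun a ha => ((hΦ a).1 ha).1) ?_ ?_ ?_ ?_ ?_
      {g : EuclideanSpace ℝ (Fin 3) ≃ₗ[ℝ] EuclideanSpace ℝ (Fin 3) | (∀ x, ‖g x‖ = ‖x‖) ∧ ∀ x, x ∈ C ↔ g x ∈ C}
      (fun g hg => hg.1) ?_ ?_
    · have h1 : Φ = {a | ‖a‖ = 1} ∩ ⋂ x ∈ C, (fun a => x - (2 * ⟪a, x⟫) • a) ⁻¹' C := by
        ext a
        rw [hΦ]
        simp
      rw [h1]
      refine IsClosed.inter (isClosed_eq continuous_norm continuous_const) (isClosed_biInter fun x _ => hC.preimage ?_)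
      fun_prop
    · intro a ha
      rw [hΦ] at ha ⊢
      refine ⟨by rw [norm_neg]; exact ha.1, fun x hx => ?_⟩
      have h1 := ha.2 x hx
      rw [inner_neg_left, mul_neg, smul_neg, neg_smul, neg_neg]
      exact h1
    · intro a ha b hb
      rw [hΦ] at ha hb ⊢
      have haa : ⟪a, a⟫ = (1 : ℝ) := by rw [real_inner_self_eq_norm_sq, ha.1]; norm_num
      have hbb : ⟪b, b⟫ = (1 : ℝ) := by rw [real_inner_self_eq_norm_sq, hb.1]; norm_num
      refine ⟨?_, fun x hx => ?_⟩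
      · have h1 : ‖b - (2 * ⟪a, b⟫) • a‖ ^ 2 = 1 := by
          rw [← real_inner_self_eq_norm_sq]
          simp only [inner_sub_left, inner_sub_right, real_inner_smul_left, real_inner_smul_right, haa, hbb,
            real_inner_comm a b]
          ring
        have h2 := norm_nonneg (b - (2 * ⟪a, b⟫) • a)
        nlinarith
      · have h1 := ha.2 _ (hb.2 _ (ha.2 x hx))
        have h2 : x - (2 * ⟪b - (2 * ⟪a, b⟫) • a, x⟫) • (b - (2 * ⟪a, b⟫) • a) =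
            (x - (2 * ⟪a, x⟫) • a - (2 * ⟪b, x - (2 * ⟪a, x⟫) • a⟫) • b) -
              (2 * ⟪a, x - (2 * ⟪a, x⟫) • a - (2 * ⟪b, x - (2 * ⟪a, x⟫) • a⟫) • b⟫) • a := by
          simp only [inner_sub_left, inner_sub_right, real_inner_smul_left, real_inner_smul_right, haa,
            real_inner_comm a b]
          module
        rw [h2]
        exact h1
    · have hp0 : (WithLp.toLp 2 p : EuclideanSpace ℝ (Fin 3)) ≠ 0 := by
        intro h
        have h1 : ⟪(WithLp.toLp 2 p : EuclideanSpace ℝ (Fin 3)), (WithLp.toLp 2 p : EuclideanSpace ℝ (Fin 3))⟫ = (1 : ℝ) := by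
          rw [inner_eq_dot]
          exact hp
        rw [h, inner_zero_left] at h1
        exact zero_ne_one h1
      have h1 := Submodule.finrank_add_finrank_orthogonal (Submodule.span ℝ {(WithLp.toLp 2 p : EuclideanSpace ℝ (Fin 3))})
      rw [finrank_span_singleton hp0, h3] at h1
      exact Nat.add_left_cancel (n := 1) (m := _) (k := 2) h1
    · intro a haP ha1
      rw [hΦ]
      refine ⟨ha1, fun x hx => ?_⟩
      have h1 : ⟪a, a⟫ = (1 : ℝ) := by rw [real_inner_self_eq_norm_sq, ha1]; norm_num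
      rw [inner_eq_dot] at h1
      have h2 : ⟪(WithLp.toLp 2 p : EuclideanSpace ℝ (Fin 3)), a⟫ = (0 : ℝ) :=
        Submodule.mem_orthogonal_singleton_iff_inner_right.1 haP
      rw [inner_eq_dot] at h2
      have h4 := hmir (WithLp.ofLp a) h1 h2 (WithLp.ofLp x) (by rw [hD]; exact hx)
      rw [hD, ← inner_eq_dot] at h4
      exact h4
    · intro g hg a ha
      rw [hΦ] at ha ⊢
      refine ⟨by rw [hg.1]; exact ha.1, fun x hx => ?_⟩
      have hin : ∀ x y, ⟪g x, g y⟫ = (⟪x, y⟫ : ℝ) := fun x y =>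
        LinearIsometry.inner_map_map
          (⟨g.toLinearMap, hg.1⟩ : EuclideanSpace ℝ (Fin 3) →ₗᵢ[ℝ] EuclideanSpace ℝ (Fin 3)) x y
      have h1 : g (g.symm x) = x := g.apply_symm_apply x
      have h2 : g.symm x ∈ C := by
        rw [hg.2, h1]
        exact hx
      have h4 := (hg.2 _).1 (ha.2 _ h2)
      rw [map_sub, map_smul, h1, ← hin a, h1] at h4
      exact h4
    · intro q hq
      exact hirr q fun g h1 h2 => hq g ⟨h1, h2⟩
  intro a ha x hx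
  have h1 : a ∈ Φ := by
    rw [key, mem_sphere_zero_iff_norm]
    exact ha
  exact ((hΦ a).1 h1).2 x hx

end Pool.Agent.Lib.MP_5e7226_co.IN
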